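import Pool.Agent.Lib.MP_f11a48_ag.CMK.Spec
import Pool.Agent.Lib.MP_f11a48_ag.CMM.Typn

/-!
# MP_f11a48_ag, relative flatness: definitions

As `CMK`, but the torsor is only tested on the characters in a space `P` of odd functions on the set of
the embeddings of the centre: flatness is needed below `P` only.
-/

set_option autoImplicit false

namespace Pool.Agent.Lib.MPf11a48.RF

open Matrix MvPolynomial
open Pool.Agent.Lib.MPf11a48.CM hiding OmegaM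
open Pool.Agent.Lib.MPf11a48.GL2T
open Pool.Agent.Lib.MPf11a48.U
open Pool.Agent.Lib.MPf11a48.CMM
open Pool.Agent.Lib.MPf11a48.CMK
open Pool.Agent.Lib.MPf11a48.Tors (IsTorsor ClosedOver grp OmegaM FixesField)

section

variable {ι : Type} [Fintype ι] [DecidableEq ι]

/-- As `SepO`, for spaces contained in `P`. -/
def SepP (F : IntermediateField ℚ ℂ) {c : Matrix ι ι ℂ} (ψ : Matrix ι ι ℚ)
    (R : Set (CenAlg c ≃ₐ[ℚ] CenAlg c)) (O P : Submodule ℚ (EmbC c → ℚ)) : Prop :=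
  ∀ U : Submodule ℚ (EmbC c → ℚ), O ≤ U → U ≤ P →
    (∀ f ∈ U, ∀ s s', IsBar ψ s s' → f s' = -f s) →
    (∀ γ : Qbar ≃ₐ[ℚ] Qbar, OverG F γ → ∀ f ∈ U, (fun s => f (γ.toAlgHom.comp s)) ∈ U) →
    (∀ κ ∈ R, ∀ f ∈ U, (fun s : EmbC c => f (s.comp κ.toAlgHom)) ∈ U) →
    U ≤ O ∨ ∃ s s' t t' : EmbC c, IsBar ψ s s' ∧ IsBar ψ t t' ∧
      delta s s' - delta t t' ∈ U ∧ delta s s' ≠ delta t t'

/-- The hypotheses on `O` (relations which hold on `kk`) and on `P`. -/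
structure RelsP (c : GL ι ℂ) (ψ : Matrix ι ι ℚ) (F : IntermediateField ℚ ℂ) (S : Str c ψ)
    (R : Set (CenAlg c.1 ≃ₐ[ℚ] CenAlg c.1)) (kk : Submodule ℂ (Matrix ι ι ℂ))
    (O P : Submodule ℚ (EmbC c.1 → ℚ)) : Prop where
  odd : ∀ f ∈ O, ∀ s s', IsBar ψ s s' → f s' = -f s
  gal : ∀ γ : Qbar ≃ₐ[ℚ] Qbar, OverG F γ → ∀ f ∈ O, (fun s => f (γ.toAlgHom.comp s)) ∈ O
  act : ∀ κ ∈ R, ∀ f ∈ O, (fun s : EmbC c.1 => f (s.comp κ.toAlgHom)) ∈ O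
  rel : ∀ w : EmbC c.1 → ℂ, TORM.cenL S (fun e => w (S.ev e)) ∈ kk → ∀ f ∈ O,
    ∑ s, (f s : ℂ) * w s = 0
  sep : SepP F ψ R O P
  conj : ConjIn F c.1 ψ
  bar : ∀ κ ∈ R, ∀ s s' : EmbC c.1, IsBar ψ s s' →
    IsBar ψ (s.comp κ.toAlgHom) (s'.comp κ.toAlgHom)
  le : O ≤ P
  oddP : ∀ f ∈ P, ∀ s s', IsBar ψ s s' → f s' = -f s
  galP : ∀ γ : Qbar ≃ₐ[ℚ] Qbar, OverG F γ → ∀ f ∈ P, (fun s => f (γ.toAlgHom.comp s)) ∈ P

end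

/-- As `FlatFL`, for spaces contained in `U`; `U` is stable under the automorphisms over `F`. -/
def FlatU (F L : IntermediateField ℚ ℂ) (E : IntermediateField ℚ Qbar)
    (U : Submodule ℚ ((E →ₐ[ℚ] Qbar) → ℚ)) : Prop :=
  (∀ γ : Qbar ≃ₐ[ℚ] Qbar, OverG F γ → ∀ f ∈ U, (fun φ => f (γ.toAlgHom.comp φ)) ∈ U) ∧
  ∀ V : Submodule ℚ ((E →ₐ[ℚ] Qbar) → ℚ), V ≤ U → V ≠ ⊥ →
    (∀ f ∈ V, ∀ φ φ' : E →ₐ[ℚ] Qbar,
      (∀ x, ((φ' x : Qbar) : ℂ) = (starRingEnd ℂ) ((φ x : Qbar) : ℂ)) → f φ' = -f φ) →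
    (∀ γ : Qbar ≃ₐ[ℚ] Qbar, OverG F γ → ∀ f ∈ V, (fun φ => f (γ.toAlgHom.comp φ)) ∈ V) →
    (∀ (γ : Qbar ≃ₐ[ℚ] Qbar) (e : E →ₐ[ℚ] E), OverG L γ →
      (∀ x : E, ((e x : E) : Qbar) = γ x) → ∀ f ∈ V, (fun φ : E →ₐ[ℚ] Qbar => f (φ.comp e)) ∈ V) →
    ∃ f ∈ V, f ≠ 0 ∧ ∀ φ, f φ = 0 ∨ f φ = 1 ∨ f φ = -1

open scoped Classical in
/-- The odd functions on the embeddings of the centre whose function on the embeddings of `E` is in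
`U`. -/
noncomputable def PU {ι : Type} [Fintype ι] [DecidableEq ι] {c : Matrix ι ι ℂ} (ψ : Matrix ι ι ℚ)
    (T : Set (EmbC c)) (E : IntermediateField ℚ Qbar) (U : Submodule ℚ ((E →ₐ[ℚ] Qbar) → ℚ)) :
    Submodule ℚ (EmbC c → ℚ) where
  carrier := {f | (∀ s s', IsBar ψ s s' → f s' = -f s) ∧
    ∃ h ∈ U, ∀ γ : Qbar ≃ₐ[ℚ] Qbar, TypM.sm T γ f = h (γ.symm.toAlgHom.comp E.val)}
  add_mem' := by
    rintro f g ⟨hf, h, hh, hf'⟩ ⟨hg, k, hk, hg'⟩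
    refine ⟨fun s s' hs => ?_, h + k, U.add_mem hh hk, fun γ => ?_⟩
    · rw [Pi.add_apply, Pi.add_apply, hf s s' hs, hg s s' hs]
      ring
    · rw [TypM.sm_add, hf', hg']
      rfl
  zero_mem' := by
    refine ⟨fun s s' _ => by simp, 0, U.zero_mem, fun γ => ?_⟩
    unfold TypM.sm
    simp
  smul_mem' := by
    rintro r f ⟨hf, h, hh, hf'⟩
    refine ⟨fun s s' hs => ?_, r • h, U.smul_mem r hh, fun γ => ?_⟩
    · rw [Pi.smul_apply, Pi.smul_apply, hf s s' hs, smul_neg]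
    · rw [TypM.sm_smul, hf']
      rfl

end Pool.Agent.Lib.MPf11a48.RF
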