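import Pool.Agent.Lib.MP_f11a48_ag.CMK.DefsT

/-!
# Motives of complex multiplication type, relative flatness: definitions

Definitions for `Pool/Agent/Results/MP_f11a48_ag/CMMotives.lean`. The condition `FlatIn` is tested on
a space `U` of functions only, which contains the odd characters of the Mumford-Tate group of the
object `N` (`CharIn`).
-/

set_option autoImplicit false

namespace Pool.Agent.Lib.MPf11a48.CMS

open Matrix MvPolynomial
open Pool.Agent.Lib.MPf11a48.CM hiding OmegaM
open Pool.Agent.Lib.MPf11a48.GL2T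
open Pool.Agent.Lib.MPf11a48.U

/-- `U` is stable under left translations by the automorphisms over `F`, and every non-zero space
`V ⊆ U` of odd functions `f` on the set of the embeddings `γ|E` of `E`, which is stable under left
translations by the automorphisms over `F` and under right translations by the automorphisms over
`L` which preserve `E`, contains a non-zero function with values in `{0, 1, -1}`. (For the space `U`
of all functions this is `FlatOver F L E`.) -/
def FlatIn (F L : IntermediateField ℚ ℂ) (E : Sub) (U : Submodule ℚ (GalQ → ℚ)) : Prop :=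
  (∀ δ, Over F δ → ∀ f ∈ U, (fun γ => f (δ * γ)) ∈ U) ∧
  ∀ V : Submodule ℚ (GalQ → ℚ), V ≤ U → V ≠ ⊥ →
    (∀ f ∈ V, ∀ γ σ, Fix E σ → f (γ * σ) = f γ) →
    (∀ f ∈ V, ∀ ρ, IsConj ρ → ∀ γ, f (ρ * γ) = -f γ) →
    (∀ δ, Over F δ → ∀ f ∈ V, (fun γ => f (δ * γ)) ∈ V) →
    (∀ δ, Over L δ → Stab E δ → ∀ f ∈ V, (fun γ => f (γ * δ)) ∈ V) →
    ∃ f ∈ V, f ≠ 0 ∧ ∀ γ, f γ = 0 ∨ f γ = 1 ∨ f γ = -1

section

variable {ι : Type} [Fintype ι] [DecidableEq ι]

open scoped Classical in
/-- The function on the Galois group given by a function `χ` on the embeddings of the centre and by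
the union `T` of the CM types: `γ ↦ ∑ χ s`, for all `s` with `γ⁻¹ s ∈ T`. If `χ = δ_s - δ_s̄` this is
`1` on the CM type given by `s` and `-1` on the conjugate one. -/
noncomputable def typeFun {c : Matrix ι ι ℂ} (T : Set (EmbC c)) (χ : EmbC c → ℚ) : GalQ → ℚ :=
  fun γ => ∑ s : EmbC c, if act γ⁻¹ s ∈ T then χ s else 0

/-- `χ` is odd -/
def OddFun {c : Matrix ι ι ℂ} (ψ : Matrix ι ι ℚ) {R : Type} [Neg R] (χ : EmbC c → R) : Prop :=
  ∀ s s', IsBar ψ s s' → χ s' = -χ s

end

/-- `U` contains the odd characters of the Mumford-Tate group of `N` (with inclusion `iB`): let `w`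
be an odd complex function on the embeddings of the centre which is orthogonal to all odd rational
functions `χ` with `typeFun χ ∈ U`. Then the matrix `x` which is `exp (w s)` on the eigenvectors of
the centre with eigenvalue `s` acts trivially on `N`. -/
def CharIn {g N k : ℕ} (A : AbData g N) (c : GL (Ix g) ℂ) (U : Submodule ℚ (GalQ → ℚ)) {κ ι : Type}
    [Fintype κ] [DecidableEq κ] [Fintype ι] [DecidableEq ι]
    (T : GL (Ix g ⊕ Fin k) ℂ × ℂˣ → GL κ ℂ) (iB : Matrix κ ι ℚ) : Prop :=
  ∀ w : EmbC c.1 → ℂ, OddFun A.psi w →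
    (∀ χ : EmbC c.1 → ℚ, OddFun A.psi χ → typeFun (Tan A c.1) χ ∈ U →
      ∑ s, (χ s : ℂ) * w s = 0) →
    ∀ x : GL (Ix g) ℂ, (∀ s v, Eig s v → v ᵥ* x.1 = Complex.exp (w s) • v) →
      (T (dsum x 1, 1)).1 * iB.map (fun x => (x : ℂ)) = iB.map (fun x => (x : ℂ))

end Pool.Agent.Lib.MPf11a48.CMS
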