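import Pool.Agent.Lib.MP_f11a48_ag.SH.RF.DefsR
import Mathlib

/-!
# MP_f11a48_ag, relative flatness: examples of flat spaces
-/

set_option autoImplicit false

namespace Pool.Agent.Lib.MPf11a48.CMS

open Matrix MvPolynomial
open Pool.Agent.Lib.MPf11a48.CM hiding OmegaM
open Pool.Agent.Lib.MPf11a48.GL2T
open Pool.Agent.Lib.MPf11a48.U

/-- If `FlatOver F L E` then `FlatIn F L E U` for every stable space `U`. -/
theorem flatIn_of_flatOver {F L : IntermediateField ℚ ℂ} {E : Sub} (h : FlatOver F L E)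
    {U : Submodule ℚ (GalQ → ℚ)} (hU : ∀ δ, Over F δ → ∀ f ∈ U, (fun γ => f (δ * γ)) ∈ U) :
    FlatIn F L E U :=
  ⟨hU, fun V _ h1 h2 h3 h4 h5 => h V h1 h2 h3 h4 h5⟩

/-- A space without stable subspaces (for example if the torus is simple) is flat if it contains a
non-zero function with values in `{0, 1, -1}`. -/
theorem flatIn_of_simple {F L : IntermediateField ℚ ℂ} {E : Sub}
    {U : Submodule ℚ (GalQ → ℚ)} (hU : ∀ δ, Over F δ → ∀ f ∈ U, (fun γ => f (δ * γ)) ∈ U)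
    (hs : ∀ V : Submodule ℚ (GalQ → ℚ), V ≤ U → V ≠ ⊥ →
      (∀ δ, Over F δ → ∀ f ∈ V, (fun γ => f (δ * γ)) ∈ V) → V = U)
    (hf : ∃ f ∈ U, f ≠ 0 ∧ ∀ γ, f γ = 0 ∨ f γ = 1 ∨ f γ = -1) : FlatIn F L E U := by
  refine ⟨hU, fun V hV h1 _ _ h4 _ => ?_⟩
  rw [hs V hV h1 h4]
  exact hf

/-- The sum of two flat spaces is flat, if some automorphism over `F` acts on the first as `1` and
on the second as `-1` (for example if the fields of definition are linearly disjoint and the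
functions are odd). -/
theorem flatIn_sup {F L : IntermediateField ℚ ℂ} {E : Sub} {U₁ U₂ : Submodule ℚ (GalQ → ℚ)}
    (h₁ : FlatIn F L E U₁) (h₂ : FlatIn F L E U₂)
    (hd : ∃ δ, Over F δ ∧ (∀ f ∈ U₁, ∀ γ, f (δ * γ) = f γ) ∧ ∀ f ∈ U₂, ∀ γ, f (δ * γ) = -f γ) :
    FlatIn F L E (U₁ ⊔ U₂) := by
  obtain ⟨d, hd, hd1, hd2⟩ := hd
  refine ⟨fun δ hδ f hf => ?_, fun V hV h0 hfix hodd hleft hright => ?_⟩
  · obtain ⟨f₁, hf₁, f₂, hf₂, rfl⟩ := Submodule.mem_sup.1 hf
    exact Submodule.add_mem_sup (h₁.1 δ hδ f₁ hf₁) (h₂.1 δ hδ f₂ hf₂)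
  obtain ⟨v, hv, hv0⟩ := (Submodule.ne_bot_iff V).1 h0
  obtain ⟨f₁, hf₁, f₂, hf₂, rfl⟩ := Submodule.mem_sup.1 (hV hv)
  -- the components
  have hdv := hleft d hd _ hv
  have e1 : (2 : ℚ) • f₁ ∈ V := by
    have h := V.add_mem hv hdv
    convert h using 1
    funext γ
    simp only [Pi.smul_apply, Pi.add_apply, smul_eq_mul]
    rw [hd1 f₁ hf₁, hd2 f₂ hf₂]
    ring
  have e2 : (2 : ℚ) • f₂ ∈ V := by
    have h := V.sub_mem hv hdv
    convert h using 1
    funext γ
    simp only [Pi.smul_apply, Pi.add_apply, Pi.sub_apply, smul_eq_mul]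
    rw [hd1 f₁ hf₁, hd2 f₂ hf₂]
    ring
  have m1 : f₁ ∈ V := by
    have h := V.smul_mem (1 / 2 : ℚ) e1
    rwa [smul_smul, show (1 / 2 : ℚ) * 2 = 1 by norm_num, one_smul] at h
  have m2 : f₂ ∈ V := by
    have h := V.smul_mem (1 / 2 : ℚ) e2
    rwa [smul_smul, show (1 / 2 : ℚ) * 2 = 1 by norm_num, one_smul] at h
  have key : ∀ U' : Submodule ℚ (GalQ → ℚ), FlatIn F L E U' → V ⊓ U' ≠ ⊥ →
      (∀ δ, ∀ f ∈ V ⊓ U', (fun γ => f (γ * δ)) ∈ V → (fun γ => f (γ * δ)) ∈ U') →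
      ∃ f ∈ V, f ≠ 0 ∧ ∀ γ, f γ = 0 ∨ f γ = 1 ∨ f γ = -1 := by
    intro U' hU' h0' hr
    obtain ⟨f, hf, h⟩ := hU'.2 (V ⊓ U') inf_le_right h0' (fun f hf => hfix f hf.1)
      (fun f hf => hodd f hf.1) (fun δ hδ f hf => ⟨hleft δ hδ f hf.1, hU'.1 δ hδ f hf.2⟩)
      (fun δ hδ hE f hf => ⟨hright δ hδ hE f hf.1, hr δ f hf (hright δ hδ hE f hf.1)⟩)
    exact ⟨f, hf.1, h⟩
  by_cases hz : f₁ = 0
  · refine key U₂ h₂ ?_ fun δ f hf hfV => ?_
    · rw [Submodule.ne_bot_iff]
      refine ⟨f₂, ⟨m2, hf₂⟩, fun h2 => hv0 ?_⟩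
      rw [hz, h2, add_zero]
    · obtain ⟨g₁, hg₁, g₂, hg₂, hg⟩ := Submodule.mem_sup.1 (hV hfV)
      have h0 : g₁ = 0 := by
        funext γ
        have a1 : g₁ (d * γ) + g₂ (d * γ) = f (d * γ * δ) := congrFun hg (d * γ)
        have a2 : g₁ γ + g₂ γ = f (γ * δ) := congrFun hg γ
        rw [hd1 g₁ hg₁, hd2 g₂ hg₂, mul_assoc, hd2 f hf.2] at a1
        change g₁ γ = 0
        linarith
      rw [h0, zero_add] at hg
      rw [← hg]
      exact hg₂
  · refine key U₁ h₁ ?_ fun δ f hf hfV => ?_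
    · rw [Submodule.ne_bot_iff]
      exact ⟨f₁, ⟨m1, hf₁⟩, hz⟩
    · obtain ⟨g₁, hg₁, g₂, hg₂, hg⟩ := Submodule.mem_sup.1 (hV hfV)
      have h0 : g₂ = 0 := by
        funext γ
        have a1 : g₁ (d * γ) + g₂ (d * γ) = f (d * γ * δ) := congrFun hg (d * γ)
        have a2 : g₁ γ + g₂ γ = f (γ * δ) := congrFun hg γ
        rw [hd1 g₁ hg₁, hd2 g₂ hg₂, mul_assoc, hd1 f hf.2] at a1
        change g₂ γ = 0
        linarith
      rw [h0, add_zero] at hg
      rw [← hg]
      exact hg₁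

section perm

variable {n : ℕ}

/-- The functions `γ ↦ ε γ * ∑ i, a i * φ (γ⁻¹ i)`, where the Galois group acts on `{1, …, n}` by `π`
and `ε` is a sign: the characters of the Mumford-Tate group of a simple abelian variety with complex
multiplication by `K₀ E₀`, where `K₀` is an imaginary quadratic field with sign character `ε`, `E₀` a
totally real field with embeddings `{1, …, n}`, and `φ i = 1` if the extension of `i` which is the
fixed embedding on `K₀` is in the CM type, `φ i = -1` otherwise. -/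
noncomputable def permFun (π : GalQ →* Equiv.Perm (Fin n)) (ε : GalQ →* ℤˣ) (φ : Fin n → ℚ) :
    (Fin n → ℚ) →ₗ[ℚ] (GalQ → ℚ) where
  toFun a γ := ((ε γ : ℤ) : ℚ) * ∑ i, a i * φ (π γ⁻¹ i)
  map_add' a b := by
    funext γ
    simp only [Pi.add_apply, add_mul, Finset.sum_add_distrib, mul_add]
  map_smul' r a := by
    funext γ
    simp only [Pi.smul_apply, smul_eq_mul, RingHom.id_apply, mul_assoc, ← Finset.mul_sum]
    ring

theorem permFun_apply (π : GalQ →* Equiv.Perm (Fin n)) (ε : GalQ →* ℤˣ) (φ : Fin n → ℚ)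
    (a : Fin n → ℚ) (γ : GalQ) :
    permFun π ε φ a γ = ((ε γ : ℤ) : ℚ) * ∑ i, a i * φ (π γ⁻¹ i) := rfl

theorem permFun_mul (π : GalQ →* Equiv.Perm (Fin n)) (ε : GalQ →* ℤˣ) (φ : Fin n → ℚ)
    (a : Fin n → ℚ) (δ : GalQ) : (fun γ => permFun π ε φ a (δ * γ)) =
      ((ε δ : ℤ) : ℚ) • permFun π ε φ (fun i => a (π δ i)) := by
  funext γ
  rw [Pi.smul_apply, permFun_apply, permFun_apply, smul_eq_mul, map_mul]
  have h1 : ∑ i, a i * φ (π (δ * γ)⁻¹ i) = ∑ i, a (π δ i) * φ (π γ⁻¹ i) := by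
    rw [← Equiv.sum_comp (π δ)]
    refine Finset.sum_congr rfl fun i _ => ?_
    congr 2
    rw [_root_.mul_inv_rev, map_mul, Equiv.Perm.mul_apply, map_inv, map_inv]
    congr 1
    exact (π δ).symm_apply_apply i
  rw [h1]
  push_cast
  ring

theorem sign_sq (u : ℤˣ) : ((u : ℤ) : ℚ) * ((u : ℤ) : ℚ) = 1 := by
  rcases Int.units_eq_one_or u with h | h <;> rw [h] <;> norm_num

/-- **The space of the characters is flat if the Galois group is 2-transitive.** -/
theorem flatIn_of_perm {F L : IntermediateField ℚ ℂ} {E : Sub} (π : GalQ →* Equiv.Perm (Fin n))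
    (ε : GalQ →* ℤˣ) {φ : Fin n → ℚ} (hφ : ∀ i, φ i = 1 ∨ φ i = -1)
    (h2 : ∀ i j i' j' : Fin n, i ≠ j → i' ≠ j' → ∃ δ, Over F δ ∧ π δ i = i' ∧ π δ j = j') :
    FlatIn F L E (LinearMap.range (permFun π ε φ)) := by
  classical
  refine ⟨?_, ?_⟩
  · rintro δ - _ ⟨a, rfl⟩
    rw [permFun_mul]
    exact Submodule.smul_mem _ _ ⟨_, rfl⟩
  intro V hV h0 hfix hodd hleft hright
  -- the space of the coefficients
  let X : Submodule ℚ (Fin n → ℚ) := V.comap (permFun π ε φ)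
  have hX : ∀ δ, Over F δ → ∀ a ∈ X, (fun i => a (π δ i)) ∈ X := by
    intro δ hδ a ha
    have h := V.smul_mem ((ε δ : ℤ) : ℚ) (hleft δ hδ _ ha)
    rw [permFun_mul, smul_smul, sign_sq, one_smul] at h
    exact h
  -- the finite group
  let H : Set (Equiv.Perm (Fin n)) := {σ | ∃ δ, Over F δ ∧ π δ = σ}
  have hH1 : ∀ σ ∈ H, ∀ a ∈ X, (fun i => a (σ i)) ∈ X := by
    rintro _ ⟨δ, hδ, rfl⟩ a ha
    exact hX δ hδ a ha
  have hmul : ∀ σ ∈ H, ∀ τ ∈ H, σ * τ ∈ H := by
    rintro _ ⟨δ, hδ, rfl⟩ _ ⟨δ', hδ', rfl⟩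
    refine ⟨δ * δ', fun x hx => ?_, map_mul _ _ _⟩
    change ap δ (ap δ' x) = x
    rw [hδ' x hx, hδ x hx]
  have hinv : ∀ σ ∈ H, σ⁻¹ ∈ H := by
    rintro _ ⟨δ, hδ, rfl⟩
    refine ⟨δ⁻¹, fun x hx => ?_, map_inv _ _⟩
    have h1 : ap δ⁻¹ (ap δ x) = x := by
      change (AlgEquiv.toEquiv (δ⁻¹ * δ : GalQ)) x = x
      rw [inv_mul_cancel]
      rfl
    rwa [hδ x hx] at h1
  have htr : ∀ i j i' j' : Fin n, i ≠ j → i' ≠ j' → ∃ σ ∈ H, σ i = i' ∧ σ j = j' := by
    intro i j i' j' h h'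
    obtain ⟨δ, hδ, h1, h3⟩ := h2 i j i' j' h h'
    exact ⟨π δ, ⟨δ, hδ, rfl⟩, h1, h3⟩
  obtain ⟨v, hv, hv0⟩ := (Submodule.ne_bot_iff V).1 h0
  obtain ⟨a, rfl⟩ := hV hv
  have haX : a ∈ X := hv
  -- the one dimensional case
  have hone : ∀ r : ℚ, (∀ γ, permFun π ε φ a γ = ((ε γ : ℤ) : ℚ) * r) →
      ∃ f ∈ V, f ≠ 0 ∧ ∀ γ, f γ = 0 ∨ f γ = 1 ∨ f γ = -1 := by
    intro r hval
    have hr0 : r ≠ 0 := by
      intro h
      apply hv0
      funext γ
      rw [hval, h, mul_zero]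
      rfl
    refine ⟨r⁻¹ • permFun π ε φ a, V.smul_mem _ hv, ?_, fun γ => ?_⟩
    · intro h
      exact hv0 ((smul_eq_zero.1 h).resolve_left (inv_ne_zero hr0))
    · rw [Pi.smul_apply, hval, smul_eq_mul]
      have h3 : r⁻¹ * (((ε γ : ℤ) : ℚ) * r) = ((ε γ : ℤ) : ℚ) := by
        rw [mul_comm ((ε γ : ℤ) : ℚ) r, ← mul_assoc, inv_mul_cancel₀ hr0, one_mul]
      rw [h3]
      rcases Int.units_eq_one_or (ε γ) with h | h <;> rw [h] <;> simp
  by_cases hconst : ∀ i j, a i = a j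
  · by_cases hn : n = 0
    · subst hn
      exfalso
      apply hv0
      funext γ
      rw [permFun_apply]
      simp
    obtain ⟨i₀⟩ : Nonempty (Fin n) := ⟨⟨0, Nat.pos_of_ne_zero hn⟩⟩
    refine hone (a i₀ * ∑ i, φ i) fun γ => ?_
    rw [permFun_apply]
    congr 1
    rw [← Equiv.sum_comp (π γ⁻¹) φ, Finset.mul_sum]
    refine Finset.sum_congr rfl fun i _ => ?_
    rw [hconst i i₀]
  by_cases hφc : ∀ i j, φ i = φ j
  · by_cases hn : n = 0
    · subst hn
      exfalso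
      apply hv0
      funext γ
      rw [permFun_apply]
      simp
    obtain ⟨i₀⟩ : Nonempty (Fin n) := ⟨⟨0, Nat.pos_of_ne_zero hn⟩⟩
    refine hone ((∑ i, a i) * φ i₀) fun γ => ?_
    rw [permFun_apply]
    congr 1
    rw [Finset.sum_mul]
    refine Finset.sum_congr rfl fun i _ => ?_
    rw [hφc _ i₀]
  · -- averages over the stabilisers
    push Not at hconst hφc
    let St : Fin n → Finset (Equiv.Perm (Fin n)) := fun i =>
      Finset.univ.filter fun σ => σ ∈ H ∧ σ i = i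
    let b : Fin n → Fin n → ℚ := fun i k => ∑ σ ∈ St i, a (σ k)
    have hbX : ∀ i, b i ∈ X := by
      intro i
      have h3 : b i = ∑ σ ∈ St i, fun k => a (σ k) := by
        funext k
        rw [Finset.sum_apply]
      rw [h3]
      refine X.sum_mem fun σ hσ => hH1 σ (Finset.mem_filter.1 hσ).2.1 a haX
    have hbi : ∀ i, b i i = (St i).card * a i := by
      intro i
      change ∑ σ ∈ St i, a (σ i) = _
      rw [Finset.sum_congr rfl fun σ hσ => by rw [(Finset.mem_filter.1 hσ).2.2],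
        Finset.sum_const, nsmul_eq_mul]
    have hbc : ∀ i k k', k ≠ i → k' ≠ i → b i k = b i k' := by
      intro i k k' hk hk'
      obtain ⟨τ, hτ, h3, h4⟩ := htr i k i k' hk.symm hk'.symm
      change ∑ σ ∈ St i, a (σ k) = ∑ σ ∈ St i, a (σ k')
      refine Finset.sum_nbij' (fun σ => σ * τ⁻¹) (fun σ => σ * τ) ?_ ?_ ?_ ?_ ?_
      · intro σ hσ
        obtain ⟨-, h5, h6⟩ := Finset.mem_filter.1 hσ
        refine Finset.mem_filter.2 ⟨Finset.mem_univ _, hmul _ h5 _ (hinv _ hτ), ?_⟩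
        rw [Equiv.Perm.mul_apply, Equiv.Perm.inv_eq_iff_eq.2 h3.symm, h6]
      · intro σ hσ
        obtain ⟨-, h5, h6⟩ := Finset.mem_filter.1 hσ
        refine Finset.mem_filter.2 ⟨Finset.mem_univ _, hmul _ h5 _ hτ, ?_⟩
        rw [Equiv.Perm.mul_apply, h3, h6]
      · intro σ _
        exact inv_mul_cancel_right σ τ
      · intro σ _
        exact mul_inv_cancel_right σ τ
      · intro σ _
        rw [Equiv.Perm.mul_apply, Equiv.Perm.inv_eq_iff_eq.2 h4.symm]
    have hsum : ∀ i, ∑ k, b i k = (St i).card * ∑ k, a k := by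
      intro i
      change ∑ k, ∑ σ ∈ St i, a (σ k) = _
      rw [Finset.sum_comm, Finset.sum_congr rfl fun σ _ => Equiv.sum_comp σ a,
        Finset.sum_const, nsmul_eq_mul]
    have hcard : ∀ i, ((St i).card : ℚ) ≠ 0 := by
      intro i
      have : (1 : Equiv.Perm (Fin n)) ∈ St i := by
        refine Finset.mem_filter.2 ⟨Finset.mem_univ _, ⟨1, fun x _ => rfl, map_one _⟩, rfl⟩
      exact_mod_cast (Finset.card_pos.2 ⟨_, this⟩).ne'
    obtain ⟨i₀, j₀, hij₀⟩ := hconst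
    have hne : i₀ ≠ j₀ := fun h => hij₀ (by rw [h])
    -- some average is not constant
    obtain ⟨i, j, hji, hb⟩ : ∃ i j, j ≠ i ∧ b i j ≠ b i i := by
      by_contra hcon
      push Not at hcon
      have hn : (n : ℚ) ≠ 0 := by
        have : 0 < n := Fin.pos i₀
        exact_mod_cast this.ne'
      have h3 : ∀ i, (n : ℚ) * a i = ∑ k, a k := by
        intro i
        have h4 := hsum i
        have h5 : ∑ k, b i k = n * ((St i).card * a i) := by
          rw [← hbi, Finset.sum_congr rfl fun k _ => show b i k = b i i by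
            by_cases hk : k = i
            · rw [hk]
            · exact hcon i k hk, Finset.sum_const, nsmul_eq_mul, Finset.card_univ,
            Fintype.card_fin]
        rw [h5] at h4
        have h6 : ((St i).card : ℚ) * (n * a i) = (St i).card * ∑ k, a k := by
          rw [← h4]
          ring
        exact mul_left_cancel₀ (hcard i) h6
      apply hij₀
      have h4 := (h3 i₀).trans (h3 j₀).symm
      exact mul_left_cancel₀ hn h4
    -- differences
    have hdiff : ∀ i' j' : Fin n, i' ≠ j' → (Pi.single i' 1 - Pi.single j' 1 : Fin n → ℚ) ∈ X := by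
      intro i' j' h'
      obtain ⟨σ, hσ, h3, h4⟩ := htr i' j' i j h' hji.symm
      obtain ⟨τ, hτ, h5, h6⟩ := htr j' i' i j h'.symm hji.symm
      have e1 := X.sub_mem (hH1 σ hσ _ (hbX i)) (hH1 τ hτ _ (hbX i))
      have e2 := X.smul_mem (b i i - b i j)⁻¹ e1
      have h7 : b i i - b i j ≠ 0 := fun h => hb (sub_eq_zero.1 h).symm
      have hv1 : ∀ k, b i (σ k) = if k = i' then b i i else b i j := by
        intro k
        split_ifs with hk
        · rw [hk, h3]
        · refine hbc i _ _ (fun h => hk ?_) hji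
          rw [← h3] at h
          exact σ.injective h
      have hv2 : ∀ k, b i (τ k) = if k = j' then b i i else b i j := by
        intro k
        split_ifs with hk
        · rw [hk, h5]
        · refine hbc i _ _ (fun h => hk ?_) hji
          rw [← h5] at h
          exact τ.injective h
      convert e2 using 1
      funext k
      simp only [Pi.smul_apply, Pi.sub_apply, smul_eq_mul]
      rw [hv1, hv2]
      by_cases hk : k = i'
      · subst hk
        rw [if_pos rfl, if_neg h', Pi.single_eq_same, Pi.single_eq_of_ne h', sub_zero,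
          inv_mul_cancel₀ h7]
      · by_cases hk' : k = j'
        · subst hk'
          rw [if_neg hk, if_pos rfl, Pi.single_eq_same, Pi.single_eq_of_ne hk, zero_sub,
            ← neg_sub (b i i) (b i j), mul_neg, inv_mul_cancel₀ h7]
        · rw [if_neg hk, if_neg hk', Pi.single_eq_of_ne hk, Pi.single_eq_of_ne hk', sub_self,
            sub_self, mul_zero]
    obtain ⟨p, q, hpq⟩ := hφc
    have hpq' : p ≠ q := fun h => hpq (by rw [h])
    have hval : ∀ γ, permFun π ε φ (Pi.single p 1 - Pi.single q 1) γ =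
        ((ε γ : ℤ) : ℚ) * (φ (π γ⁻¹ p) - φ (π γ⁻¹ q)) := by
      intro γ
      rw [permFun_apply]
      congr 1
      simp only [Pi.sub_apply, sub_mul, Finset.sum_sub_distrib]
      rw [Finset.sum_eq_single p (fun k _ hk => by rw [Pi.single_eq_of_ne hk, zero_mul])
        (fun h => absurd (Finset.mem_univ _) h),
        Finset.sum_eq_single q (fun k _ hk => by rw [Pi.single_eq_of_ne hk, zero_mul])
        (fun h => absurd (Finset.mem_univ _) h), Pi.single_eq_same, Pi.single_eq_same, one_mul,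
        one_mul]
    refine ⟨(1 / 2 : ℚ) • permFun π ε φ (Pi.single p 1 - Pi.single q 1),
      V.smul_mem _ (hdiff p q hpq'), fun h => ?_, fun γ => ?_⟩
    · have h3 := congrFun h 1
      rw [Pi.smul_apply, hval, inv_one, map_one, map_one] at h3
      apply hpq
      have h4 : (1 / 2 : ℚ) * (((1 : ℤˣ) : ℤ) * (φ p - φ q)) = 0 := h3
      simp only [Units.val_one, Int.cast_one, one_mul] at h4
      linarith
    · rw [Pi.smul_apply, hval, smul_eq_mul]
      rcases Int.units_eq_one_or (ε γ) with h | h <;> rw [h] <;>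
        rcases hφ (π γ⁻¹ p) with h3 | h3 <;> rcases hφ (π γ⁻¹ q) with h4 | h4 <;>
        rw [h3, h4] <;> norm_num

end perm

end Pool.Agent.Lib.MPf11a48.CMS
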