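import Pool.Agent.Lib.MP_f11a48_ag.SH.RF.Defs
import Pool.Agent.Lib.MP_f11a48_ag.CMM.Tenn

/-!
# MP_f11a48_ag, relative flatness, modules TENN and TEN
-/

set_option autoImplicit false

namespace Pool.Agent.Lib.MPf11a48.RF

section

open Matrix MvPolynomial
open Pool.Agent.Lib.MPf11a48.CM hiding OmegaM
open Pool.Agent.Lib.MPf11a48.GL2T
open Pool.Agent.Lib.MPf11a48.U
open Pool.Agent.Lib.MPf11a48.CMM
open Pool.Agent.Lib.MPf11a48.CMK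
open Pool.Agent.Lib.MPf11a48.C (IsRep IsSubObj imG tpi)
open Pool.Agent.Lib.MPf11a48.C.TenM (bd)
open Pool.Agent.Lib.MPf11a48.Tors (IsTorsor ClosedOver grp OmegaM FixesField)
open Pool.Agent.Lib.MPf11a48.K3 (cx)

open TennM in
theorem tennP (hLgk : SpecLgk) (g N : ℕ) (A : AbData g N) (c : GL (Ix g) ℂ)
    (K F : IntermediateField ℚ ℂ) (𝓖 Z : Set (GL (Ix g) ℂ × ℂˣ)) (hg : 0 < g) (hK : K ≤ Qbar)
    (hA : A.IsAbVar K) (hc : c.1 = A.per)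
    (h𝓖 : ∀ kk : Submodule ℂ (Matrix (Ix g) (Ix g) ℂ), LieOK c F kk →
      ∀ 𝒢 : Subgroup (GL (Ix g) ℂ × ℂˣ),
      (∀ X ∈ kk, ∀ m : ℂ, Xᵀ * mC A.psi + mC A.psi * X = m • mC A.psi →
        ∀ y : GL (Ix g) ℂ × ℂˣ, y.1.1 = NormedSpace.exp X → (y.2 : ℂ) = Complex.exp m → y ∈ 𝒢) →
      (∀ τ : ℂ ≃+* ℂ, FixesField K τ → ∀ y ∈ 𝒢, (twg τ c * y.1 * (twg τ c)⁻¹, y.2) ∈ 𝒢) →
      (∀ z ∈ Z, z ∈ 𝒢) → ∀ y ∈ 𝓖, y ∈ 𝒢)
    (k : ℕ) (r : GL (Fin k) ℂ) (hr : IsAlg r.1) (T : Set (GL ((Ix g ⊕ Fin k) ⊕ Unit) ℂ))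
    (hT : IsTorsor K T) (hcT : bd (dsum c r, tpi) ∈ T) (hgrp : ClosedOver F (grp T))
    (hZ : ∀ z ∈ Z, bd (dsum z.1 1, z.2) ∈ grp T) (y : GL (Ix g) ℂ × ℂˣ) (hy : y ∈ 𝓖) :
    bd ((dsum y.1 1, y.2) * (dsum c r, tpi)) ∈ T := by
  obtain ⟨kk, hkk, hexp⟩ := hLgk g N k A c K F hg hK hA hc r hr T hT hcT hgrp
  have hcT' : bh ((c, r), tpi) ∈ T := hcT
  -- the subgroup
  let φ : GL (Ix g) ℂ × ℂˣ →* (GL (Ix g) ℂ × GL (Fin k) ℂ) × ℂˣ :=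
    { toFun := fun y => ((y.1, 1), y.2)
      map_one' := rfl
      map_mul' := fun x y => by
        refine Prod.ext (Prod.ext rfl ?_) rfl
        change (1 : GL (Fin k) ℂ) = 1 * 1
        group }
  let 𝒢 : Subgroup (GL (Ix g) ℂ × ℂˣ) := (grpS hT).comap (bh.comp φ)
  have h𝒢 : ∀ y, y ∈ 𝒢 ↔ bh ((y.1, 1), y.2) ∈ grp T := fun _ => Iff.rfl
  have h1 : y ∈ 𝒢 := by
    refine h𝓖 kk hkk 𝒢 ?_ ?_ (fun z hz => hZ z hz) y hy
    · intro X hX m hm x hx hx'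
      exact hexp X hX m hm x hx hx'
    · intro τ hτ x hx
      rw [h𝒢] at hx ⊢
      have h2 : Tors.tw τ (bh ((c, r), tpi)) ∈ T := Tors.ClosedOver.tw_mem hT.closed hτ hcT'
      set w : ℂˣ := Units.map ((τ : ℂ →+* ℂ) : ℂ →* ℂ) tpi
      have h3 : bh ((twg τ c, Tors.tw τ r * r⁻¹), w * tpi⁻¹) ∈ grpS hT := by
        refine ⟨_, h2, _, hcT', ?_⟩
        rw [tw_bh, ← map_inv, ← map_mul]
        rfl
      have hx' : bh ((x.1, (1 : GL (Fin k) ℂ)), x.2) ∈ grpS hT := hx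
      have h4 := (grpS hT).mul_mem ((grpS hT).mul_mem h3 hx') ((grpS hT).inv_mem h3)
      rw [← map_inv, ← map_mul, ← map_mul] at h4
      have h5 : ((twg τ c, Tors.tw τ r * r⁻¹), w * tpi⁻¹) * ((x.1, (1 : GL (Fin k) ℂ)), x.2) *
          ((twg τ c, Tors.tw τ r * r⁻¹), w * tpi⁻¹)⁻¹ =
          ((twg τ c * x.1 * (twg τ c)⁻¹, 1), x.2) := by
        refine Prod.ext (Prod.ext rfl ?_) ?_
        · change (Tors.tw τ r * r⁻¹) * 1 * (Tors.tw τ r * r⁻¹)⁻¹ = 1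
          group
        · change (w * tpi⁻¹) * x.2 * (w * tpi⁻¹)⁻¹ = x.2
          rw [mul_comm (w * tpi⁻¹) x.2, mul_inv_cancel_right]
      rw [h5] at h4
      exact h4
  rw [h𝒢, Tors.mem_grp_iff hT hcT'] at h1
  have h2 : bd ((dsum y.1 1, y.2) * (dsum c r, tpi)) =
      bh ((y.1, (1 : GL (Fin k) ℂ)), y.2) * bh ((c, r), tpi) := by
    rw [map_mul]
    rfl
  rw [h2]
  exact h1


end

section

open Matrix MvPolynomial Pool.Agent.Lib.MPf11a48.Tors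
open Pool.Agent.Lib.MPf11a48.CM hiding OmegaM tw
open Pool.Agent.Lib.MPf11a48.GL2T (Conj)
open Pool.Agent.Lib.MPf11a48.C (IsRep IsSubObj imG tpi)
open Pool.Agent.Lib.MPf11a48.C.TenM
open Pool.Agent.Lib.MPf11a48.CMM (IsSubOver)

/-- If every torsor over `L` with group over `F` through `(c, 2 π i)` contains `W (c, 2 π i)`,
then this is so for all torsors over `K` with group over `F` through a sub-object over `L` of the
objects obtained by tensor operations. -/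
theorem tenP {μ : Type} [Fintype μ] [DecidableEq μ] (W Z : Set (GL μ ℂ × ℂˣ)) (c : GL μ ℂ)
    (L F : IntermediateField ℚ ℂ)
    (hW : ∀ T : Set (GL (μ ⊕ Unit) ℂ), IsTorsor L T → bd (c, tpi) ∈ T →
      ClosedOver F (grp T) → (∀ z ∈ Z, bd z ∈ grp T) → ∀ y ∈ W, bd (y * (c, tpi)) ∈ T)
    (K : IntermediateField ℚ ℂ) (hK : K ≤ L) (κ ι : Type) [Fintype κ] [DecidableEq κ]
    [Fintype ι] [DecidableEq ι] (T : GL μ ℂ × ℂˣ → GL κ ℂ) (hT : IsRep T) (n : GL ι ℂ)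
    (iB : Matrix κ ι ℚ) (hN : IsSubOver L (T (c, tpi)) n iB)
    (hZ : ∀ z ∈ Z, (T z).1 * iB.map (algebraMap ℚ ℂ) = iB.map (algebraMap ℚ ℂ))
    (T' : Set (GL ι ℂ)) (hT' : IsTorsor K T') (hn : n ∈ T') (hcl : ClosedOver F (grp T')) :
    (∀ y ∈ W, ∃ f : GL ι ℂ,
      (T y).1 * iB.map (algebraMap ℚ ℂ) = iB.map (algebraMap ℚ ℂ) * f.1) ∧
    ∀ f ∈ imG T iB W, ∀ h, Conj K (f * n) h → h ∈ T' := by
  obtain ⟨⟨pB, hpB⟩, idR, hdR⟩ := hN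
  have hpBC : pB.map (algebraMap ℚ ℂ) * iB.map (algebraMap ℚ ℂ) = 1 := by
    rw [← Matrix.map_mul, hpB, Matrix.map_one _ (map_zero _) (map_one _)]
  have hnn : n⁻¹.1 * n.1 = 1 := n.inv_mul
  have hG : (n⁻¹.1 * pB.map (algebraMap ℚ ℂ) * (T (c, tpi)).1) * idR.map (algebraMap L ℂ) = 1 := by
    rw [Matrix.mul_assoc, hdR]
    calc n⁻¹.1 * pB.map (algebraMap ℚ ℂ) * (iB.map (algebraMap ℚ ℂ) * n.1)
        = n⁻¹.1 * (pB.map (algebraMap ℚ ℂ) * iB.map (algebraMap ℚ ℂ)) * n.1 := by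
          simp only [Matrix.mul_assoc]
      _ = 1 := by rw [hpBC, Matrix.mul_one, hnn]
  -- uniqueness of the automorphism
  have huniq : ∀ {f f' : GL ι ℂ}, iB.map (algebraMap ℚ ℂ) * f.1 = iB.map (algebraMap ℚ ℂ) * f'.1 →
      f = f' := by
    intro f f' h
    apply Units.ext
    have h1 := congrArg (fun X => pB.map (algebraMap ℚ ℂ) * X) h
    simp only [← Matrix.mul_assoc, hpBC, Matrix.one_mul] at h1
    exact h1
  have hT₀ : IsTorsor L T' := ⟨GL2.closedOver_mono hK hT'.closed, hT'.nonempty, hT'.heap⟩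
  have hT1 : T 1 = 1 := by
    have h := hT.mul 1 1
    rw [mul_one] at h
    exact (mul_eq_left.1 h.symm)
  have hTinv : ∀ x, T x⁻¹ = (T x)⁻¹ := by
    intro x
    rw [eq_inv_iff_mul_eq_one, ← hT.mul, inv_mul_cancel, hT1]
  -- the preimage
  set T₁ : Set (GL (μ ⊕ Unit) ℂ) := {g | ∃ x, bd x = g ∧ ∃ f ∈ T',
    (T x).1 * idR.map (algebraMap L ℂ) = iB.map (algebraMap ℚ ℂ) * f.1} with hT₁
  have hcT₁ : bd (c, tpi) ∈ T₁ := ⟨_, rfl, n, hn, hdR⟩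
  have htor : IsTorsor L T₁ := by
    refine ⟨closedOver_sub hT.regular hpB hG hT₀.closed, ⟨_, hcT₁⟩, ?_⟩
    rintro _ ⟨x, rfl, fx, hx, hx'⟩ _ ⟨y, rfl, fy, hy, hy'⟩ _ ⟨z, rfl, fz, hz, hz'⟩
    refine ⟨x * y⁻¹ * z, by rw [map_mul, map_mul, map_inv], fx * fy⁻¹ * fz,
      hT₀.heap _ hx _ hy _ hz, ?_⟩
    rw [hT.mul, hT.mul, hTinv]
    exact sub_mul (sub_inv hx' hy') hz'
  have hiB : (iB.map (algebraMap ℚ F)).map (algebraMap F ℂ) = iB.map (algebraMap ℚ ℂ) := by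
    ext i j
    exact (IsScalarTower.algebraMap_apply ℚ F ℂ _).symm
  have hgrp : ClosedOver F (grp T₁) := by
    have e : grp T₁ = {g | ∃ x, bd x = g ∧ ∃ f ∈ grp T', (T x).1 *
        (iB.map (algebraMap ℚ F)).map (algebraMap F ℂ) = iB.map (algebraMap ℚ ℂ) * f.1} := by
      ext g
      rw [mem_grp_iff htor hcT₁, hiB]
      constructor
      · rintro ⟨x, hx, f, hf, hx'⟩
        refine ⟨x * (c, tpi)⁻¹, by rw [map_mul, map_inv, hx, mul_inv_cancel_right], f * n⁻¹,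
          ⟨f, hf, n, hn, rfl⟩, ?_⟩
        rw [hT.mul, hTinv]
        exact sub_inv hx' hdR
      · rintro ⟨x, rfl, f, hf, hx⟩
        refine ⟨x * (c, tpi), map_mul _ _ _, f * n, (mem_grp_iff hT₀ hn).1 hf, ?_⟩
        rw [hT.mul]
        exact sub_mul hx hdR
    rw [e]
    refine closedOver_sub hT.regular hpB (G := pB.map (algebraMap ℚ ℂ)) ?_ hcl
    rw [hiB]
    exact hpBC
  have hZ' : ∀ z ∈ Z, bd z ∈ grp T₁ := by
    intro z hz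
    rw [mem_grp_iff htor hcT₁]
    refine ⟨z * (c, tpi), map_mul _ _ _, n, hn, ?_⟩
    rw [hT.mul]
    change (T z).1 * (T (c, tpi)).1 * idR.map (algebraMap L ℂ) = _
    rw [Matrix.mul_assoc, hdR, ← Matrix.mul_assoc, hZ z hz]
  have hmain : ∀ y ∈ W, ∃ f : GL ι ℂ,
      (T y).1 * iB.map (algebraMap ℚ ℂ) = iB.map (algebraMap ℚ ℂ) * f.1 ∧ f * n ∈ T' := by
    intro y hy
    obtain ⟨x, hx, f, hf, hx'⟩ := hW T₁ htor hcT₁ hgrp hZ' y hy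
    have hxy : x = y * (c, tpi) := bd_injective hx
    have h1 := sub_inv (f := f) (f' := n) hx' hdR
    rw [hxy, hT.mul, mul_inv_cancel_right] at h1
    exact ⟨f * n⁻¹, h1, by rwa [inv_mul_cancel_right]⟩
  have h0 : ∀ f ∈ imG T iB W, f * n ∈ T' := by
    rintro f ⟨y, hy, hf⟩
    obtain ⟨f', hf', h2⟩ := hmain y hy
    have : f = f' := huniq (hf.symm.trans hf')
    rw [this]
    exact h2
  refine ⟨fun y hy => ?_, ?_⟩
  · obtain ⟨f, hf, _⟩ := hmain y hy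
    exact ⟨f, hf⟩
  · intro f hf h hh
    obtain ⟨τ, hτ, hh⟩ := hh
    have hh' : h = tw τ (f * n) := by
      apply Units.ext
      exact Matrix.ext hh
    rw [hh']
    exact hT'.closed.tw_mem hτ (h0 f hf)


end

end Pool.Agent.Lib.MPf11a48.RF
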