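import Pool.Agent.Lib.MP_f11a48_ag.SH.RF.Defs

/-!
# MP_f11a48_ag, relative flatness, module TYPK
-/

set_option autoImplicit false

namespace Pool.Agent.Lib.MPf11a48.RF

open Matrix MvPolynomial
open Pool.Agent.Lib.MPf11a48.CM hiding OmegaM
open Pool.Agent.Lib.MPf11a48.GL2T
open Pool.Agent.Lib.MPf11a48.U
open Pool.Agent.Lib.MPf11a48.CMM
open Pool.Agent.Lib.MPf11a48.CMK
open Pool.Agent.Lib.MPf11a48.K3 (cx)
open scoped Classical

open CMM.TypM CMM.TypnM in
theorem typkP (ι : Type) [Fintype ι] [DecidableEq ι] (c : Matrix ι ι ℂ) (ψ : Matrix ι ι ℚ)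
    (T : Set (EmbC c)) (E : IntermediateField ℚ Qbar) (F₁ K : IntermediateField ℚ ℂ)
    (R : Set (CenAlg c ≃ₐ[ℚ] CenAlg c)) (W : Submodule ℚ ((E →ₐ[ℚ] Qbar) → ℚ))
    (hHS : HalfSet ψ T) (hFlat : FlatU F₁ K E W)
    (hrefl : ∀ s : EmbC c, ¬ IsBar ψ s s → ∀ σ : Qbar ≃ₐ[ℚ] Qbar, (∀ x ∈ E, σ x = x) →
      (σ.toAlgHom.comp s ∈ T ↔ s ∈ T))
    (hall : ∀ ξ : Set (E →ₐ[ℚ] Qbar), IsType ξ → ∃ s : EmbC c, ¬ IsBar ψ s s ∧
      ∀ γ : Qbar ≃ₐ[ℚ] Qbar, γ.toAlgHom.comp s ∈ T ↔ γ.symm.toAlgHom.comp E.val ∈ ξ)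
    (hexR : ∀ γ : Qbar ≃ₐ[ℚ] Qbar, OverG K γ → ∃ κ ∈ R,
      ∀ s : EmbC c, ((γ.toAlgHom.comp s).comp κ.toAlgHom ∈ T ↔ s ∈ T)) :
    SepP F₁ ψ R (OddH ψ T) (PU ψ T E W) := by
  intro U hOH hUP hodd hgal hkap
  obtain ⟨h1, h2, h3, h4, h5, h6⟩ := hHS
  -- the conjugate of an embedding
  have hrho : ∀ s s' : EmbC c, IsBar ψ s s' → rho.toAlgHom.comp s = s' := by
    intro s s' h
    refine AlgHom.ext fun z => ?_
    apply Subtype.ext
    have := h4 s s' z h
    rw [← this]
    exact rho_coe (s z)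
  -- real embeddings
  have hreal : ∀ f : EmbC c → ℚ, (∀ s s', IsBar ψ s s' → f s' = -f s) →
      ∀ s, IsBar ψ s s → f s = 0 := by
    intro f hf s hs
    have := hf s s hs
    linarith
  have hnr : ∀ (γ : Qbar ≃ₐ[ℚ] Qbar) (s : EmbC c), ¬ IsBar ψ s s →
      ¬ IsBar ψ (γ.toAlgHom.comp s) (γ.toAlgHom.comp s) := by
    intro γ s hs h
    apply hs
    have := h5 γ.symm _ _ h
    rwa [comp_symm] at this
  -- independence of the choice
  have hind : ∀ (γ γ' : Qbar ≃ₐ[ℚ] Qbar), γ.symm.toAlgHom.comp E.val = γ'.symm.toAlgHom.comp E.val →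
      ∀ s : EmbC c, ¬ IsBar ψ s s → (γ.toAlgHom.comp s ∈ T ↔ γ'.toAlgHom.comp s ∈ T) := by
    intro γ γ' hγ s hs
    have h7 := hrefl (γ'.toAlgHom.comp s) (hnr γ' s hs) (γ'.symm.trans γ) (by
      intro x hx
      have h8 : γ.symm x = γ'.symm x := DFunLike.congr_fun hγ (⟨x, hx⟩ : E)
      change γ (γ'.symm x) = x
      rw [← h8, AlgEquiv.apply_symm_apply])
    have h9 : (γ'.symm.trans γ).toAlgHom.comp (γ'.toAlgHom.comp s) = γ.toAlgHom.comp s := by
      refine AlgHom.ext fun z => ?_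
      change γ (γ'.symm (γ' (s z))) = γ (s z)
      rw [AlgEquiv.symm_apply_apply]
    rwa [h9] at h7
  have hind2 : ∀ (γ γ' : Qbar ≃ₐ[ℚ] Qbar), γ.symm.toAlgHom.comp E.val = γ'.symm.toAlgHom.comp E.val →
      ∀ f : EmbC c → ℚ, (∀ s s', IsBar ψ s s' → f s' = -f s) → sm T γ f = sm T γ' f := by
    intro γ γ' hγ f hf
    unfold sm
    refine Finset.sum_congr rfl fun s _ => ?_
    by_cases hs : IsBar ψ s s
    · rw [hreal f hf s hs]
      split_ifs <;> rfl
    · have := hind γ γ' hγ s hs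
      by_cases h7 : γ.toAlgHom.comp s ∈ T
      · rw [if_pos h7, if_pos (this.1 h7)]
      · rw [if_neg h7, if_neg (fun h => h7 (this.2 h))]
  choose G hG using exists_ext E
  let F : (EmbC c → ℚ) →ₗ[ℚ] ((E →ₐ[ℚ] Qbar) → ℚ) :=
    { toFun := fun f φ => sm T (G φ) f
      map_add' := fun f g => by
        funext φ
        exact sm_add T _ f g
      map_smul' := fun r f => by
        funext φ
        exact sm_smul T _ r f }
  have hF : ∀ f φ, F f φ = sm T (G φ) f := fun f φ => rfl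
  have hFγ : ∀ (γ : Qbar ≃ₐ[ℚ] Qbar) (f : EmbC c → ℚ), (∀ s s', IsBar ψ s s' → f s' = -f s) →
      sm T γ f = F f (γ.symm.toAlgHom.comp E.val) := by
    intro γ f hf
    rw [hF]
    exact hind2 _ _ (hG _).symm f hf
  -- the automorphism `γ ρ`
  have hGbar : ∀ φ φ' : E →ₐ[ℚ] Qbar,
      (∀ x, ((φ' x : Qbar) : ℂ) = (starRingEnd ℂ) ((φ x : Qbar) : ℂ)) →
      (G φ').symm.toAlgHom.comp E.val = (rho.symm.trans (G φ)).symm.toAlgHom.comp E.val := by
    intro φ φ' hφ
    rw [hG]
    refine AlgHom.ext fun x => ?_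
    apply Subtype.ext
    rw [hφ x]
    have h7 : (G φ).symm (x : Qbar) = φ x := DFunLike.congr_fun (hG φ) x
    change (starRingEnd ℂ) ((φ x : Qbar) : ℂ) = ((rho ((G φ).symm (x : Qbar)) : Qbar) : ℂ)
    rw [h7, rho_coe]
  have hbarcomp : ∀ (γ : Qbar ≃ₐ[ℚ] Qbar) (s s' : EmbC c), IsBar ψ s s' →
      (rho.symm.trans γ).toAlgHom.comp s' = γ.toAlgHom.comp s := by
    intro γ s s' h
    rw [← hrho s s' h]
    refine AlgHom.ext fun z => ?_
    change γ (rho.symm (rho (s z))) = γ (s z)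
    rw [AlgEquiv.symm_apply_apply]
  -- the involution
  choose bar hbar using h1
  have hbarbar : ∀ s, bar (bar s) = s := fun s => h2 (bar s) _ _ (hbar (bar s)) (h3 _ _ (hbar s))
  have hFodd : ∀ f : EmbC c → ℚ, (∀ s s', IsBar ψ s s' → f s' = -f s) →
      ∀ φ φ' : E →ₐ[ℚ] Qbar,
        (∀ x, ((φ' x : Qbar) : ℂ) = (starRingEnd ℂ) ((φ x : Qbar) : ℂ)) → F f φ' = -F f φ := by
    intro f hf φ φ' hφ
    rw [hF, hF, hind2 _ _ (hGbar φ φ' hφ) f hf]
    unfold sm
    rw [← Finset.sum_neg_distrib]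
    refine Finset.sum_bij (fun s _ => bar s) (fun s _ => Finset.mem_univ _)
      (fun s _ s' _ h => ?_) (fun s _ => ⟨bar s, Finset.mem_univ _, hbarbar s⟩) (fun s _ => ?_)
    · rw [← hbarbar s, h, hbarbar]
    · rw [hbarcomp (G φ) (bar s) s (h3 _ _ (hbar s)), hf s (bar s) (hbar s)]
      split_ifs <;> simp
  by_cases hV : U.map F = ⊥
  · left
    intro f hf
    refine ⟨hodd f hf, fun γ => ?_⟩
    have h7 : F f = 0 := by
      have : F f ∈ U.map F := ⟨f, hf, rfl⟩
      rw [hV] at this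
      exact this
    change sm T γ f = 0
    rw [hFγ γ f (hodd f hf), h7]
    rfl
  · right
    obtain ⟨F0, ⟨f, hfU, rfl⟩, hF0, hval⟩ := hFlat.2 (U.map F) (by
      rintro _ ⟨f, hf, rfl⟩
      obtain ⟨-, h, hh, hfh⟩ := hUP hf
      have h7 : F f = h := by
        funext φ
        rw [hF, hfh]
        exact congrArg h (hG φ)
      rw [h7]
      exact hh) hV (by
      rintro _ ⟨f, hf, rfl⟩ φ φ' hφ
      exact hFodd f (hodd f hf) φ φ' hφ) (by
      rintro γ hγF _ ⟨f, hf, rfl⟩
      refine ⟨_, hgal γ hγF f hf, ?_⟩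
      funext φ
      rw [hF, hF]
      have h7 : sm T (G (γ.toAlgHom.comp φ)) f = sm T (γ.symm.trans (G φ)) f := by
        apply hind2 _ _ _ f (hodd f hf)
        rw [hG]
        refine AlgHom.ext fun x => ?_
        have h8 : (G φ).symm (x : Qbar) = φ x := DFunLike.congr_fun (hG φ) x
        change γ (φ x) = γ ((G φ).symm (x : Qbar))
        rw [h8]
      rw [h7]
      unfold sm
      refine Finset.sum_bij (fun s _ => γ.toAlgHom.comp s) (fun s _ => Finset.mem_univ _)
        (fun s _ s' _ h => (act (c := c) γ).injective h)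
        (fun s _ => ⟨γ.symm.toAlgHom.comp s, Finset.mem_univ _, (act (c := c) γ).apply_symm_apply s⟩)
        (fun s _ => ?_)
      have h8 : (γ.symm.trans (G φ)).toAlgHom.comp (γ.toAlgHom.comp s) = (G φ).toAlgHom.comp s := by
        refine AlgHom.ext fun z => ?_
        change (G φ) (γ.symm (γ (s z))) = (G φ) (s z)
        rw [AlgEquiv.symm_apply_apply]
      rw [h8]) (by
      rintro γ e hγK hγe _ ⟨f, hf, rfl⟩
      obtain ⟨κ, hκR, hκ⟩ := hexR γ.symm (fun a ha => by
        rw [AlgEquiv.symm_apply_eq]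
        exact (hγK a ha).symm)
      refine ⟨_, hkap κ hκR f hf, ?_⟩
      funext φ
      rw [hF, hF, sm_comp T κ γ.symm (G φ) hκ f]
      apply hind2 _ _ _ f (hodd f hf)
      rw [hG]
      refine AlgHom.ext fun x => ?_
      have h8 : (G φ).symm ((e x : E) : Qbar) = φ (e x) := DFunLike.congr_fun (hG φ) (e x)
      change (G φ).symm (γ (x : Qbar)) = φ (e x)
      rw [← hγe x, h8])
    have hfodd := hodd f hfU
    -- an embedding which is not real
    obtain ⟨s₀, hs₀⟩ : ∃ s₀ : EmbC c, ¬ IsBar ψ s₀ s₀ := by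
      by_contra hcon
      push Not at hcon
      apply hF0
      have : f = 0 := by
        funext s
        exact hreal f hfodd s (hcon s)
      rw [this, map_zero]
    have hflip : ∀ s : EmbC c, ¬ IsBar ψ s s → ∀ φ φ' : E →ₐ[ℚ] Qbar,
        (∀ x, ((φ' x : Qbar) : ℂ) = (starRingEnd ℂ) ((φ x : Qbar) : ℂ)) →
        ((G φ').toAlgHom.comp s ∈ T ↔ (G φ).toAlgHom.comp s ∉ T) := by
      intro s hs φ φ' hφ
      rw [hind _ _ (hGbar φ φ' hφ) s hs, hbarcomp (G φ) (bar s) s (h3 _ _ (hbar s))]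
      apply h6 _ _ (h5 (G φ) _ _ (hbar s))
      intro h
      have h7 := (act (c := c) (G φ)).injective h
      apply hs
      have h8 := hbar s
      rwa [← h7] at h8
    have hodd2 := hFodd f hfodd
    have hT1 : IsType {φ : E →ₐ[ℚ] Qbar | F f φ = 1 ∨ (F f φ = 0 ∧ (G φ).toAlgHom.comp s₀ ∈ T)} := by
      intro φ φ' hφ
      have h7 := hflip s₀ hs₀ φ φ' hφ
      have h8 := hodd2 φ φ' hφ
      change (F f φ' = 1 ∨ (F f φ' = 0 ∧ (G φ').toAlgHom.comp s₀ ∈ T)) ↔
        ¬ (F f φ = 1 ∨ (F f φ = 0 ∧ (G φ).toAlgHom.comp s₀ ∈ T))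
      rw [h7, h8]
      rcases hval φ with h9 | h9 | h9 <;> rw [h9] <;> norm_num
    have hT2 : IsType {φ : E →ₐ[ℚ] Qbar | F f φ = -1 ∨ (F f φ = 0 ∧ (G φ).toAlgHom.comp s₀ ∈ T)} := by
      intro φ φ' hφ
      have h7 := hflip s₀ hs₀ φ φ' hφ
      have h8 := hodd2 φ φ' hφ
      change (F f φ' = -1 ∨ (F f φ' = 0 ∧ (G φ').toAlgHom.comp s₀ ∈ T)) ↔
        ¬ (F f φ = -1 ∨ (F f φ = 0 ∧ (G φ).toAlgHom.comp s₀ ∈ T))
      rw [h7, h8]
      rcases hval φ with h9 | h9 | h9 <;> rw [h9] <;> norm_num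
    obtain ⟨t₁, ht₁, ht₁'⟩ := hall _ hT1
    obtain ⟨t₂, ht₂, ht₂'⟩ := hall _ hT2
    have hdel : ∀ t : EmbC c, ¬ IsBar ψ t t → ∀ γ : Qbar ≃ₐ[ℚ] Qbar,
        sm T γ (delta t (bar t)) = if γ.toAlgHom.comp t ∈ T then 1 else -1 := by
      intro t ht γ
      rw [sm_delta]
      have h7 := h6 _ _ (h5 γ _ _ (hbar t)) (by
        intro h
        have h7 := (act (c := c) γ).injective h
        apply ht
        have h8 := hbar t
        rwa [← h7] at h8)
      by_cases h8 : γ.toAlgHom.comp t ∈ T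
      · rw [if_pos h8, if_neg (fun h => (h7.1 h) h8), if_pos h8]
        norm_num
      · rw [if_neg h8, if_pos (h7.2 h8), if_neg h8]
        norm_num
    have hdodd : ∀ t s s' : EmbC c, IsBar ψ s s' →
        delta t (bar t) s' = -delta t (bar t) s := by
      intro t s s' h
      have e1 : s' = t ↔ s = bar t := by
        constructor
        · rintro rfl
          exact h2 s' _ _ (h3 _ _ h) (hbar s')
        · rintro rfl
          exact h2 (bar t) _ _ h (h3 _ _ (hbar t))
      have e2 : s' = bar t ↔ s = t := by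
        constructor
        · rintro rfl
          exact h2 (bar t) _ _ (h3 _ _ h) (h3 _ _ (hbar t))
        · rintro rfl
          exact h2 s _ _ h (hbar s)
      unfold delta
      rw [Pi.sub_apply, Pi.sub_apply, Pi.single_apply, Pi.single_apply, Pi.single_apply,
        Pi.single_apply]
      simp only [e1, e2]
      ring
    refine ⟨t₁, bar t₁, t₂, bar t₂, hbar t₁, hbar t₂, ?_, ?_⟩
    · have hmem : delta t₁ (bar t₁) - delta t₂ (bar t₂) - (2 : ℚ) • f ∈ OddH ψ T := by
        refine ⟨fun s s' h => ?_, fun γ => ?_⟩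
        · rw [Pi.sub_apply, Pi.sub_apply, Pi.smul_apply, Pi.sub_apply, Pi.sub_apply, Pi.smul_apply,
            hdodd t₁ s s' h, hdodd t₂ s s' h, hfodd s s' h]
          simp only [smul_eq_mul]
          ring
        · change sm T γ _ = 0
          rw [sm_sub, sm_sub, sm_smul, hdel t₁ ht₁, hdel t₂ ht₂, hFγ γ f hfodd]
          have k1 : γ.toAlgHom.comp t₁ ∈ T ↔ (F f (γ.symm.toAlgHom.comp E.val) = 1 ∨
              (F f (γ.symm.toAlgHom.comp E.val) = 0 ∧
                (G (γ.symm.toAlgHom.comp E.val)).toAlgHom.comp s₀ ∈ T)) := ht₁' γ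
          have k2 : γ.toAlgHom.comp t₂ ∈ T ↔ (F f (γ.symm.toAlgHom.comp E.val) = -1 ∨
              (F f (γ.symm.toAlgHom.comp E.val) = 0 ∧
                (G (γ.symm.toAlgHom.comp E.val)).toAlgHom.comp s₀ ∈ T)) := ht₂' γ
          rcases hval (γ.symm.toAlgHom.comp E.val) with h9 | h9 | h9
          · rw [h9] at k1 k2 ⊢
            by_cases h10 : (G (γ.symm.toAlgHom.comp E.val)).toAlgHom.comp s₀ ∈ T
            · rw [if_pos (k1.2 (Or.inr ⟨rfl, h10⟩)), if_pos (k2.2 (Or.inr ⟨rfl, h10⟩))]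
              norm_num
            · rw [if_neg (fun h => by
                rcases k1.1 h with h | h
                · norm_num at h
                · exact h10 h.2), if_neg (fun h => by
                rcases k2.1 h with h | h
                · norm_num at h
                · exact h10 h.2)]
              norm_num
          · rw [h9] at k1 k2 ⊢
            rw [if_pos (k1.2 (Or.inl rfl)), if_neg (fun h => by
              rcases k2.1 h with h | h
              · norm_num at h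
              · norm_num at h)]
            norm_num
          · rw [h9] at k1 k2 ⊢
            rw [if_pos (k2.2 (Or.inl rfl)), if_neg (fun h => by
              rcases k1.1 h with h | h
              · norm_num at h
              · norm_num at h)]
            norm_num
      have h7 := U.add_mem (hOH hmem) (U.smul_mem 2 hfU)
      rwa [sub_add_cancel] at h7
    · intro heq
      have hne : bar t₁ ≠ t₁ := by
        intro h
        apply ht₁
        have h8 := hbar t₁
        rwa [h] at h8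
      have h7 := congrFun heq t₁
      unfold delta at h7
      rw [Pi.sub_apply, Pi.sub_apply, Pi.single_eq_same, Pi.single_eq_of_ne hne.symm,
        Pi.single_apply, Pi.single_apply] at h7
      have h8 : t₁ = t₂ := by
        by_contra h9
        rw [if_neg h9] at h7
        split_ifs at h7 <;> norm_num at h7
      subst h8
      apply hF0
      funext φ
      have k1 := ht₁' (G φ)
      have k2 := ht₂' (G φ)
      rw [hG] at k1 k2
      have k3 : (F f φ = 1 ∨ (F f φ = 0 ∧ (G φ).toAlgHom.comp s₀ ∈ T)) ↔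
        (F f φ = -1 ∨ (F f φ = 0 ∧ (G φ).toAlgHom.comp s₀ ∈ T)) := k1.symm.trans k2
      rcases hval φ with h9 | h9 | h9
      · exact h9
      · exfalso
        rw [h9] at k3
        rcases k3.1 (Or.inl rfl) with h | h
        · norm_num at h
        · norm_num at h
      · exfalso
        rw [h9] at k3
        rcases k3.2 (Or.inl rfl) with h | h
        · norm_num at h
        · norm_num at h

end Pool.Agent.Lib.MPf11a48.RF
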