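import Pool.Agent.Lib.MP_f11a48_ag.SH.RF.Maink
import Pool.Agent.Lib.MP_f11a48_ag.SH.RF.Typk
import Pool.Agent.Lib.MP_f11a48_ag.SH.RF.Tenn
import Pool.Agent.Lib.MP_f11a48_ag.CMK.FinF

/-!
# MP_f11a48_ag, relative flatness: the theorem, from the Specs of CMK
-/

set_option autoImplicit false

namespace Pool.Agent.Lib.MPf11a48.RF

open Matrix MvPolynomial
open Pool.Agent.Lib.MPf11a48.CM hiding OmegaM
open Pool.Agent.Lib.MPf11a48.GL2T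
open Pool.Agent.Lib.MPf11a48.U
open Pool.Agent.Lib.MPf11a48.CMM
open Pool.Agent.Lib.MPf11a48.CMK
open Pool.Agent.Lib.MPf11a48.C (IsRep IsSubObj imG tpi)
open Pool.Agent.Lib.MPf11a48.C.TenM (bd)
open Pool.Agent.Lib.MPf11a48.Tors (IsTorsor ClosedOver grp OmegaM FixesField)
open Pool.Agent.Lib.MPf11a48.K3 (cx)

variable {ι : Type} [Fintype ι] [DecidableEq ι]

/-! ## The space `PU` -/

theorem oddH_le {c : Matrix ι ι ℂ} {ψ : Matrix ι ι ℚ} {T : Set (EmbC c)}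
    (E : IntermediateField ℚ Qbar) (U : Submodule ℚ ((E →ₐ[ℚ] Qbar) → ℚ)) :
    OddH ψ T ≤ PU ψ T E U := by
  intro f hf
  exact ⟨hf.1, 0, U.zero_mem, fun γ => hf.2 γ⟩

open CMM.TypM in
open scoped Classical in
theorem pu_gal {c : Matrix ι ι ℂ} {ψ : Matrix ι ι ℚ} {T : Set (EmbC c)}
    {E : IntermediateField ℚ Qbar} {U : Submodule ℚ ((E →ₐ[ℚ] Qbar) → ℚ)}
    {F : IntermediateField ℚ ℂ}
    (hU : ∀ γ : Qbar ≃ₐ[ℚ] Qbar, OverG F γ → ∀ f ∈ U, (fun φ => f (γ.toAlgHom.comp φ)) ∈ U)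
    (γ : Qbar ≃ₐ[ℚ] Qbar) (hγ : OverG F γ) {f : EmbC c → ℚ} (hf : f ∈ PU ψ T E U) :
    (fun s : EmbC c => f (γ.toAlgHom.comp s)) ∈ PU ψ T E U := by
  obtain ⟨hodd, h, hh, hfh⟩ := hf
  refine ⟨fun s s' hs => hodd _ _ fun z z' hz => congrArg γ (hs z z' hz), _, hU γ hγ h hh,
    fun γ₁ => ?_⟩
  have h1 := hfh (γ.symm.trans γ₁)
  have h2 : sm T γ₁ (fun s : EmbC c => f (γ.toAlgHom.comp s)) = sm T (γ.symm.trans γ₁) f := by
    unfold sm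
    refine Fintype.sum_equiv (TypM.act (c := c) γ) _ _ fun s => ?_
    change (if γ₁.toAlgHom.comp s ∈ T then f (γ.toAlgHom.comp s) else 0) =
      if (γ.symm.trans γ₁).toAlgHom.comp (γ.toAlgHom.comp s) ∈ T then f (γ.toAlgHom.comp s) else 0
    have h3 : (γ.symm.trans γ₁).toAlgHom.comp (γ.toAlgHom.comp s) = γ₁.toAlgHom.comp s := by
      refine AlgHom.ext fun z => ?_
      change γ₁ (γ.symm (γ (s z))) = γ₁ (s z)
      rw [AlgEquiv.symm_apply_apply]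
    rw [h3]
  rw [h2, h1]
  exact congrArg h (AlgHom.ext fun x => rfl)

/-! ## Eigenvectors -/

theorem eig_proj' {c : GL ι ℂ} {ψ : Matrix ι ι ℚ} (S : Str c ψ) (i : S.κ ⊕ S.σ) {v : ι → ℂ}
    (hv : Eig (S.ev i) v) : v ᵥ* TORM.cenL S (Pi.single i 1) = v := by
  classical
  -- the components
  have hcomp : ∀ e : S.κ ⊕ S.σ, e ≠ i → v ᵥ* TORM.cenL S (Pi.single e 1) = 0 := by
    intro e he
    by_contra hne
    apply he
    apply S.ev.injective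
    ext1 z
    have h1 : mC z.1 * TORM.cenL S (Pi.single e 1) =
        TORM.pt S z e • TORM.cenL S (Pi.single e 1) := by
      rw [← TORM.cen_pt, ← TORM.cen_mul, ← map_smul]
      congr 1
      funext e'
      by_cases h : e' = e
      · subst h
        simp
      · simp [Pi.single_eq_of_ne h]
    have h2 := hv z
    have h3 : v ᵥ* (mC z.1 * TORM.cenL S (Pi.single e 1)) =
        ((S.ev i z : Qbar) : ℂ) • (v ᵥ* TORM.cenL S (Pi.single e 1)) := by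
      rw [← Matrix.vecMul_vecMul]
      have h4 : v ᵥ* mC z.1 = ((S.ev i z : Qbar) : ℂ) • v := h2
      rw [h4, Matrix.smul_vecMul]
    rw [h1, Matrix.vecMul_smul] at h3
    have h5 : TORM.pt S z e = ((S.ev i z : Qbar) : ℂ) :=
      smul_left_injective ℂ hne h3
    exact Subtype.ext h5
  have h1 : ∑ e, TORM.cenL S (Pi.single e 1) = 1 := by
    rw [← TORM.cen_one S, ← TORM.cen_sum S 1]
    simp
  have h2 : v ᵥ* (∑ e, TORM.cenL S (Pi.single e 1)) = v := by rw [h1, Matrix.vecMul_one]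
  rw [Matrix.vecMul_sum, Finset.sum_eq_single i] at h2
  · exact h2
  · intro e _ he
    exact hcomp e he
  · intro h
    exact absurd (Finset.mem_univ _) h

theorem eig_cen {c : GL ι ℂ} {ψ : Matrix ι ι ℚ} (S : Str c ψ) (y : S.κ ⊕ S.σ → ℂ)
    (i : S.κ ⊕ S.σ) {v : ι → ℂ} (hv : Eig (S.ev i) v) : v ᵥ* TORM.cenL S y = y i • v := by
  classical
  have h1 : TORM.cenL S (Pi.single i 1) * TORM.cenL S y = y i • TORM.cenL S (Pi.single i 1) := by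
    rw [← TORM.cen_mul, ← map_smul]
    congr 1
    funext e
    by_cases h : e = i
    · subst h
      simp
    · simp [Pi.single_eq_of_ne h]
  conv_lhs => rw [← eig_proj' S i hv]
  rw [Matrix.vecMul_vecMul, h1, Matrix.vecMul_smul, eig_proj' S i hv]

open REPM MainnM in
theorem exp_CX {c : GL ι ℂ} {ψ : Matrix ι ι ℚ} (S : Str c ψ) (w : EmbC c.1 → ℂ) :
    NormedSpace.exp (CX S w) = CX S (fun s => Complex.exp (w s)) := by
  unfold CX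
  rw [TORM.cenL_apply, TORM.cenL_apply, TORM.cen, TORM.cen, ← exp_Ψ]
  congr 1
  refine Prod.ext ?_ ?_
  · funext k
    exact exp_scalar _
  · funext s
    rfl

open REPM MainnM in
theorem eig_exp {c : GL ι ℂ} {ψ : Matrix ι ι ℚ} (S : Str c ψ) (w : EmbC c.1 → ℂ) (s : EmbC c.1)
    {v : ι → ℂ} (hv : Eig s v) : v ᵥ* NormedSpace.exp (CX S w) = Complex.exp (w s) • v := by
  obtain ⟨i, rfl⟩ := S.ev.surjective s
  rw [exp_CX]
  exact eig_cen S _ i hv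

/-! ## The theorem -/

theorem relsP_oddH {c : GL ι ℂ} {J : Matrix ι ι ℝ} {ψ : Matrix ι ι ℚ}
    {F L : IntermediateField ℚ ℂ} (S : Str c ψ) (hJ : HD c J ψ)
    {T : Set (EmbC c.1)} (hgal : GalOK L c ψ T) (hlie : LieRel c ψ T) (hconj : ConjIn F c.1 ψ)
    {E : IntermediateField ℚ Qbar} {U : Submodule ℚ ((E →ₐ[ℚ] Qbar) → ℚ)}
    (hU : ∀ γ : Qbar ≃ₐ[ℚ] Qbar, OverG F γ → ∀ f ∈ U, (fun φ => f (γ.toAlgHom.comp φ)) ∈ U)
    (hsep : SepP F ψ (RGal L c) (OddH ψ T) (PU ψ T E U))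
    {kk : Submodule ℂ (Matrix ι ι ℂ)} (hkk : LieOK c F kk) :
    RelsP c ψ F S (RGal L c) kk (OddH ψ T) (PU ψ T E U) where
  odd f hf := hf.1
  gal γ _ f hf := TornM.oddH_gal γ hf
  act := hgal.odd
  rel w hw f hf := by
    rw [← Equiv.sum_comp S.ev]
    refine TORM.rel_ext S specLIN specSIM bic' hJ (f := fun e => f (S.ev e)) (fun z hz => ?_)
      (hkk.inH _ hw)
    rw [← TORM.coe_rel, (TorrM.oddH_le S hlie hf).1 z hz]
    rfl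
  sep := hsep
  conj := hconj
  bar := hgal.bar
  le := oddH_le E U
  oddP f hf := hf.1
  galP γ hγ f hf := pu_gal hU γ hγ hf

/-- The theorem. -/
theorem mainP_of (hRTK : SpecRtk) (hKND : SpecKnd) (hKSL : SpecKsl) (hGENR : SpecGenr)
    (hRlk : SpecRlk) (hLgk : SpecLgk)
    (g N : ℕ) (hg : 0 < g) (A : AbData g N) (L : IntermediateField ℚ ℂ) (hL : L ≤ Qbar)
    (hA : A.IsAbVar L) (c : GL (Ix g) ℂ) (hc : c.1 = A.per) (hGL : GL2Like c.1 A.psi)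
    (F : IntermediateField ℚ ℂ) (hF : F ≤ Qbar) (hconj : ConjIn F c.1 A.psi)
    (hCut : CutOut A c) (E : IntermediateField ℚ Qbar)
    (U : Submodule ℚ ((E →ₐ[ℚ] Qbar) → ℚ)) (hfl : FlatU F L E U) (htypes : AllTypes A c.1 E)
    (k : ℕ) (r : GL (Fin k) ℂ) (hr : IsAlg r.1) (K : IntermediateField ℚ ℂ) (hK : K ≤ L)
    (κ ι : Type) [Fintype κ] [DecidableEq κ] [Fintype ι] [DecidableEq ι]
    (T : GL (Ix g ⊕ Fin k) ℂ × ℂˣ → GL κ ℂ) (hT : IsRep T) (n : GL ι ℂ)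
    (iB : Matrix κ ι ℚ) (hN : IsSubOver L (T (dsum c r, tpi)) n iB)
    (hZ : ∀ w : EmbC c.1 → ℂ, (∀ s s', IsBar A.psi s s' → w s' = -w s) →
      (∀ f ∈ PU A.psi (Tan A c.1) E U, ∑ s, (f s : ℂ) * w s = 0) → ∀ x : GL (Ix g) ℂ,
      (∀ s v, Eig s v → v ᵥ* x.1 = Complex.exp (w s) • v) →
      (T (dsum x 1, 1)).1 * iB.map (algebraMap ℚ ℂ) = iB.map (algebraMap ℚ ℂ))
    (T' : Set (GL ι ℂ)) (hT' : IsTorsor K T') (hn : n ∈ T') (hF' : ClosedOver F (grp T')) :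
    (∀ y ∈ MTG A c, ∃ f : GL ι ℂ, (T (dsum y.1 1, y.2)).1 * iB.map (algebraMap ℚ ℂ) =
      iB.map (algebraMap ℚ ℂ) * f.1) ∧
    ∀ f ∈ imG T iB {w | ∃ y ∈ MTG A c, w = (dsum y.1 1, y.2)}, ∀ h, Conj K (f * n) h → h ∈ T' := by
  obtain ⟨⟨J, hJ⟩, -⟩ := hda' specTL' L g N A c hL hA hc
  have hH := tan' L g N A c hL hA hc hGL
  have hgal := AllNM.galn' L g N A c hL hA hc hGL
  obtain ⟨S⟩ := str' c J _ hJ hGL
  have : Nonempty (Ix g) := ⟨Sum.inl ⟨0, hg⟩⟩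
  obtain ⟨S₀, hS₀, hcut⟩ := hCut
  have hLie : LieRel c A.psi (Tan A c.1) := by
    refine specHcl (Ix g) c A.psi (Tan A c.1) S₀ hS₀ fun f hf => ?_
    obtain ⟨x, hx, rfl⟩ := hcut f hf
    rw [mul_inv_cancel_right]
    exact hx.2
  have hsep := typkP (Ix g) c.1 A.psi (Tan A c.1) E F L (RGal L c) U hH hfl htypes.reflex
    htypes.all hgal.ex
  let Z : Set (GL (Ix g) ℂ × ℂˣ) := {z | z.2 = 1 ∧ ∃ w : EmbC c.1 → ℂ,
    (∀ s s', IsBar A.psi s s' → w s' = -w s) ∧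
    (∀ f ∈ PU A.psi (Tan A c.1) E U, ∑ s, (f s : ℂ) * w s = 0) ∧
    z.1.1 = NormedSpace.exp (MainnM.CX S w)}
  have key : ∀ kk : Submodule ℂ (Matrix (Ix g) (Ix g) ℂ), LieOK c F kk →
      ∀ 𝒢 : Subgroup (GL (Ix g) ℂ × ℂˣ),
      (∀ X ∈ kk, ∀ m : ℂ, Xᵀ * mC A.psi + mC A.psi * X = m • mC A.psi →
        ∀ y : GL (Ix g) ℂ × ℂˣ, y.1.1 = NormedSpace.exp X → (y.2 : ℂ) = Complex.exp m → y ∈ 𝒢) →
      (∀ τ : ℂ ≃+* ℂ, FixesField L τ → ∀ y ∈ 𝒢, (twg τ c * y.1 * (twg τ c)⁻¹, y.2) ∈ 𝒢) →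
      (∀ z ∈ Z, z ∈ 𝒢) → ∀ y ∈ MTG A c, y ∈ 𝒢 := by
    intro kk hkk 𝒢 h1 h2 h3 y hy
    obtain ⟨u, hu⟩ := (S.mem_range y.1.1).2 hy.1.1
    obtain ⟨hr1, hr2⟩ := hRlk (Ix g) c J A.psi (Tan A c.1) S hJ hH y u hu.symm hy.1.2
    exact mainkP hRTK hKND hKSL hGENR (Ix g) c J A.psi F L S kk (OddH A.psi (Tan A c.1))
      (PU A.psi (Tan A c.1) E U) hF hJ hkk
      (relsP_oddH S hJ hgal hLie hconj hfl.1 hsep hkk) 𝒢 h1 h2
      (fun w hw hwP z hz1 hz2 => h3 z ⟨hz2, w, hw, hwP, hz1⟩) y u hu.symm hy.1.2 (hr2 hy.2)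
  obtain ⟨a, b⟩ := tenP {w | ∃ y ∈ MTG A c, w = (dsum y.1 1, y.2)}
    {w | ∃ z ∈ Z, w = (dsum z.1 1, z.2)} (dsum c r) L F (by
    rintro T'' hT'' hc' hg' hz' _ ⟨y, hy, rfl⟩
    exact tennP hLgk g N A c L F (MTG A c) Z hg hL hA hc key k r hr T'' hT'' hc' hg'
      (fun z hz => hz' _ ⟨z, hz, rfl⟩) y hy) K hK κ ι T hT n iB hN (by
    rintro _ ⟨z, ⟨hz2, w, hw, hwP, hz1⟩, rfl⟩
    rw [hz2]
    exact hZ w hw hwP z.1 fun s v hv => by rw [hz1]; exact eig_exp S w s hv)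
    T' hT' hn hF'
  exact ⟨fun y hy => a _ ⟨y, hy, rfl⟩, b⟩

end Pool.Agent.Lib.MPf11a48.RF
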