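import Pool.Agent.Lib.MP_f11a48_ag.SH.RF.Fin
import Pool.Agent.Lib.MP_f11a48_ag.SH.RF.DefsR
import Pool.Agent.Lib.MP_f11a48_ag.CMK.AllK

/-!
# MP_f11a48_ag, relative flatness: the theorem in terms of `DefsR`
-/

set_option autoImplicit false

namespace Pool.Agent.Lib.MPf11a48.CMS

open Matrix MvPolynomial
open Pool.Agent.Lib.MPf11a48.CM hiding OmegaM
open Pool.Agent.Lib.MPf11a48.GL2T
open Pool.Agent.Lib.MPf11a48.U
open Pool.Agent.Lib.MPf11a48.C (IsRep imG tpi)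
open Pool.Agent.Lib.MPf11a48.Tors (IsTorsor ClosedOver grp OmegaM)
open Pool.Agent.Lib.MPf11a48.CMK (OverG ConjIn)
open Pool.Agent.Lib.MPf11a48.RF

namespace RelM

/-- the pull-back of functions to the Galois group -/
noncomputable def P (E : Sub) : ((E →ₐ[ℚ] Qbar) → ℚ) →ₗ[ℚ] (GalQ → ℚ) :=
  LinearMap.funLeft ℚ ℚ (j E)

theorem P_apply {E : Sub} (f : (E →ₐ[ℚ] Qbar) → ℚ) (γ : GalQ) : P E f γ = f (j E γ) := rfl

theorem P_inj (E : Sub) : Function.Injective (P E) :=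
  LinearMap.funLeft_injective_of_surjective ℚ ℚ _ (j_surjective E)

/-- `U` as a space of functions on the embeddings of `E` -/
noncomputable def UE (E : Sub) (U : Submodule ℚ (GalQ → ℚ)) :
    Submodule ℚ ((E →ₐ[ℚ] Qbar) → ℚ) := U.comap (P E)

theorem flatU {F L : IntermediateField ℚ ℂ} {E : Sub} {U : Submodule ℚ (GalQ → ℚ)}
    (h : FlatIn F L E U) : FlatU F L E (UE E U) := by
  refine ⟨fun γ hγ f hf => ?_, ?_⟩
  · exact h.1 γ hγ _ hf
  intro V hVU hV hodd hleft hright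
  obtain ⟨f, ⟨f₀, hf₀, rfl⟩, hf, hfl⟩ := h.2 (V.map (P E))
    (by
      rintro _ ⟨f₀, hf₀, rfl⟩
      exact hVU hf₀)
    (by
      intro h0
      apply hV
      apply Submodule.map_injective_of_injective (P_inj E)
      rw [h0, Submodule.map_bot])
    (by
      rintro _ ⟨f₀, hf₀, rfl⟩ γ σ hσ
      change f₀ (j E (γ * σ)) = f₀ (j E γ)
      rw [j_mul_fix γ σ hσ])
    (by
      rintro _ ⟨f₀, hf₀, rfl⟩ ρ hρ γ
      exact hodd f₀ hf₀ _ _ (j_bar hρ γ))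
    (by
      rintro δ hF _ ⟨f₀, hf₀, rfl⟩
      exact ⟨_, hleft δ hF f₀ hf₀, rfl⟩)
    (by
      rintro δ hL hE _ ⟨f₀, hf₀, rfl⟩
      let e : E →ₐ[ℚ] E :=
        { toFun := fun x => ⟨ap δ x, hE x x.2⟩
          map_one' := Subtype.ext (map_one (AlgEquiv.toAlgHom δ))
          map_mul' := fun x y => Subtype.ext (map_mul (AlgEquiv.toAlgHom δ) (x : Qbar) y)
          map_zero' := Subtype.ext (map_zero (AlgEquiv.toAlgHom δ))
          map_add' := fun x y => Subtype.ext (map_add (AlgEquiv.toAlgHom δ) (x : Qbar) y)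
          commutes' := fun r => Subtype.ext ((AlgEquiv.toAlgHom δ).commutes r) }
      refine ⟨_, hright δ e hL (fun x => rfl) f₀ hf₀, ?_⟩
      funext γ
      change f₀ ((j E γ).comp e) = f₀ (j E (γ * δ))
      congr 1)
  refine ⟨f₀, hf₀, fun h0 => hf (by rw [h0, map_zero]), fun φ => ?_⟩
  obtain ⟨γ, rfl⟩ := j_surjective E φ
  exact hfl γ

section

variable {g N : ℕ} {A : AbData g N} {c : GL (Ix g) ℂ} {E : Sub}

/-- the function of an odd `χ` depends only on the embedding of `E` -/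
theorem typeFun_ext (hH : CMM.HalfSet A.psi (Tan A c.1)) (hall : AllTypes A c.1 E)
    {χ : EmbC c.1 → ℚ} (hχ : OddFun A.psi χ) {γ γ' : GalQ} (h : j E γ = j E γ') :
    typeFun (Tan A c.1) χ γ = typeFun (Tan A c.1) χ γ' := by
  have hreal : ∀ s, IsBar A.psi s s → χ s = 0 := by
    intro s hs
    have := hχ s s hs
    linarith
  have h5 := hH.2.2.2.2.1
  have hmul : ∀ (a b : GalQ) (s : EmbC c.1), act (a * b) s = act a (act b s) := fun _ _ _ => rfl
  have hnr : ∀ (γ : GalQ) (s : EmbC c.1), ¬ IsBar A.psi s s →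
      ¬ IsBar A.psi (act γ s) (act γ s) := by
    intro γ s hs h'
    apply hs
    have := h5 (γ⁻¹ : GalQ) _ _ h'
    have e : act γ⁻¹ (act γ s) = s := by
      rw [← hmul, inv_mul_cancel]
      exact AlgHom.ext fun z => rfl
    change IsBar A.psi (act γ⁻¹ (act γ s)) (act γ⁻¹ (act γ s)) at this
    rwa [e] at this
  unfold typeFun
  refine Finset.sum_congr rfl fun s _ => ?_
  by_cases hs : IsBar A.psi s s
  · rw [hreal s hs]
    simp
  · have h1 : Fix E (γ⁻¹ * γ') := (j_eq_iff γ γ').1 h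
    have h2 := hall.reflex (act γ'⁻¹ s) (hnr _ s hs) _ h1
    rw [← hmul, mul_inv_cancel_right] at h2
    by_cases h3 : act γ⁻¹ s ∈ Tan A c.1
    · rw [if_pos h3, if_pos (h2.1 h3)]
    · rw [if_neg h3, if_neg (fun h' => h3 (h2.2 h'))]

theorem mem_PU (hH : CMM.HalfSet A.psi (Tan A c.1)) (hall : AllTypes A c.1 E)
    {U : Submodule ℚ (GalQ → ℚ)} {χ : EmbC c.1 → ℚ} (hχ : OddFun A.psi χ)
    (hU : typeFun (Tan A c.1) χ ∈ U) : χ ∈ PU A.psi (Tan A c.1) E (UE E U) := by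
  choose G hG using j_surjective E
  refine ⟨hχ, fun φ => typeFun (Tan A c.1) χ (G φ), ?_, fun γ => ?_⟩
  · have h1 : P E (fun φ => typeFun (Tan A c.1) χ (G φ)) = typeFun (Tan A c.1) χ := by
      funext γ
      exact typeFun_ext hH hall hχ (hG _)
    change P E _ ∈ U
    rw [h1]
    exact hU
  · have h1 : j E (G (j E (γ⁻¹ : GalQ))) = j E (γ⁻¹ : GalQ) := hG _
    have h2 := typeFun_ext hH hall hχ h1
    have h3 : typeFun (Tan A c.1) χ (γ⁻¹ : GalQ) = CMM.TypM.sm (Tan A c.1) γ χ := by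
      unfold typeFun
      rw [show ((γ⁻¹ : GalQ)⁻¹ : GalQ) = γ from inv_inv γ]
      rfl
    rw [← h3]
    exact h2.symm

end

end RelM

open RelM MainTM in
/-- The theorem. -/
theorem mainR4 (g N : ℕ) (hg : 0 < g) (A : AbData g N) (L : IntermediateField ℚ ℂ)
    (hL : L ≤ Qbar) (hA : A.IsAbVar L) (c : GL (Ix g) ℂ) (hc : c.1 = A.per)
    (hGL : GL2Like c.1 A.psi) (F : IntermediateField ℚ ℂ) (hF : F ≤ Qbar)
    (hconj' : ConjOver F c.1 A.psi) (S₀ : Set (TPair Qbar (Ix g))) (hS₀ : ∀ α ∈ S₀, Fixes c α)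
    (hcut : ∀ f ∈ OmegaS S₀, ∃ y ∈ MT A c, f = y.1 * c) (E : Sub) (hall : AllTypes A c.1 E)
    (U : Submodule ℚ (GalQ → ℚ)) (hflat : FlatIn F L E U)
    (k : ℕ) (r : GL (Fin k) ℂ) (hr : IsAlg r.1) (K : IntermediateField ℚ ℂ) (hK : K ≤ L)
    (κ ι : Type) [Fintype κ] [DecidableEq κ] [Fintype ι] [DecidableEq ι]
    (T : GL (Ix g ⊕ Fin k) ℂ × ℂˣ → GL κ ℂ) (hT : IsRep T) (n : GL ι ℂ) (iB : Matrix κ ι ℚ)
    (hn' : IsSubOver L (T (dsum c r, tpi)) n iB) (hchar : CharIn A c U T iB) :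
    (∀ y ∈ MT A c, ∃ f : GL ι ℂ, (T (dsum y.1 1, y.2)).1 * iB.map (fun x => (x : ℂ)) =
      iB.map (fun x => (x : ℂ)) * f.1) ∧
    (∀ f ∈ MTSub A c T iB, ∀ h, Conj K (f * n) h →
      h ∈ OmegaDRB K n ∧ (K ≤ F → h ∈ OmegaM K n)) ∧
    ∀ S : Set (TPair K ι), (∀ α ∈ S, Fixes n α) →
      (∀ h ∈ OmegaS S, ∃ f ∈ MTSub A c T iB, Conj K (f * n) h) →
      OmegaDRB K n = OmegaS S ∧ (K ≤ F → OmegaM K n = OmegaS S) := by
  have hH := CMM.tan' L g N A c hL hA hc hGL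
  have hconj := conjIn hH hconj'
  obtain ⟨hinj, idR, hdR⟩ := hn'
  have hN : CMM.IsSubOver L (T (CMM.dsum c r, tpi)) n iB := by
    refine ⟨hinj, idR, ?_⟩
    rw [castMap]
    exact hdR
  rw [mt_eq] at hcut
  have key : ∀ T' : Set (GL ι ℂ), IsTorsor K T' → n ∈ T' → ClosedOver F (grp T') →
      (∀ y ∈ MT A c, ∃ f : GL ι ℂ, (T (dsum y.1 1, y.2)).1 * iB.map (fun x => (x : ℂ)) =
        iB.map (fun x => (x : ℂ)) * f.1) ∧
      ∀ f ∈ MTSub A c T iB, ∀ h, Conj K (f * n) h → h ∈ T' := by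
    intro T' hT' hn hF'
    rw [mt_eq, mtSub_eq, ← castMap]
    exact mainP_of (CMK.specRtk CMK.specKsl) (CMK.specKnd CMK.specKsl) CMK.specKsl
      (CMM.specGenr CMM.specSat) CMK.specRlk (CMK.specLgk AS.asp) g N hg A L hL hA c hc hGL F
      hF hconj ⟨S₀, hS₀, hcut⟩ E (UE E U) (flatU hflat) (allTypes hall)
      k r hr K hK κ ι T hT n iB hN (by
        intro w hw hwP x hx
        rw [castMap]
        exact hchar w hw (fun χ hχ hU => hwP χ (mem_PU hH hall hχ hU)) x hx)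
      T' hT' hn hF'
  have drbF : ClosedOver F (grp (OmegaDRB K n)) := by
    rw [Tors.grp_OmegaDRB]
    exact GL2.closedOver_mono bot_le (Tors.closedOver_GdRB K n)
  obtain ⟨h2, h3⟩ := key _ (Tors.isTorsor_OmegaDRB K n) (Tors.mem_OmegaDRB_self K n) drbF
  have h4 : K ≤ F → ∀ f ∈ MTSub A c T iB, ∀ h, Conj K (f * n) h → h ∈ OmegaM K n := fun hKF =>
    (key _ (Tors.isTorsor_OmegaM K n) (Tors.mem_OmegaM_self K n)
      (GL2.closedOver_mono hKF (Tors.closedOver_grp (Tors.isTorsor_OmegaM K n)))).2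
  refine ⟨h2, fun f hf h hh => ⟨h3 f hf h hh, fun hKF => h4 hKF f hf h hh⟩,
    fun S hS hcov => ⟨?_, fun hKF => ?_⟩⟩
  · refine Set.Subset.antisymm (drb_subset hS) fun h hh => ?_
    obtain ⟨f, hf, hfh⟩ := hcov h hh
    exact h3 f hf h hfh
  · refine Set.Subset.antisymm ((Tors.OmegaM_subset_OmegaDRB K n).trans (drb_subset hS))
      fun h hh => ?_
    obtain ⟨f, hf, hfh⟩ := hcov h hh
    exact h4 hKF f hf h hfh

end Pool.Agent.Lib.MPf11a48.CMS
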