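import Pool.Agent.Lib.MP_f11a48_ag.SH.FA.All
import Pool.Agent.Lib.MP_f11a48_ag.SH.FA.Big
import Pool.Agent.Lib.MP_f11a48_ag.SH.RF.Main

/-!
# MP_f11a48_ag, relative flatness: the final theorem, exact over large number fields (helper4)

`TARGET5` is `TARGET4` of helper47, where the last clause (`K = Qbar`) is replaced by a clause for all
fields `K` which contain a number field `G` which depends only on `A`.
-/

set_option autoImplicit false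

open Matrix
open Pool.Agent.Lib.MPf11a48.CM hiding OmegaM GalQ
open Pool.Agent.Lib.MPf11a48.GL2T
open Pool.Agent.Lib.MPf11a48.U
open Pool.Agent.Lib.MPf11a48.CMS
open Pool.Agent.Lib.MPf11a48.C (IsRep tpi)
open Pool.Agent.Lib.MPf11a48.Tors (OmegaM ClosedOver)

namespace Pool.Agent.Lib.MPf11a48.SH

/-- The statement with an exact clause for all large number fields. -/
def TARGET5 : Prop :=
  ∀ (g N : ℕ) (_ : 0 < g) (A : AbData g N) (_ : A.IsAbVar Qbar) (c : GL (Ix g) ℂ)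
    (_ : c.1 = A.per) (_ : GL2Like c.1 A.psi) (E : Sub) (_ : FiniteDimensional ℚ E)
    (_ : AllTypes A c.1 E),
    ∃ G : IntermediateField ℚ ℂ, FiniteDimensional ℚ G ∧
    (∀ K : IntermediateField ℚ ℂ, G ≤ K → ∃ S₀ : Set (TPair K (Ix g)),
      OmegaS S₀ = {f | ∃ y ∈ MT A c, f = y.1 * c}) ∧
    ∀ (L : IntermediateField ℚ ℂ) (_ : L ≤ Qbar) (_ : A.IsAbVar L)
      (F : IntermediateField ℚ ℂ) (_ : F ≤ Qbar) (_ : ConjOver F c.1 A.psi)
      (U : Submodule ℚ (GalQ → ℚ)) (_ : FlatIn F L E U)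
      (k : ℕ) (r : GL (Fin k) ℂ) (_ : IsAlg r.1) (K : IntermediateField ℚ ℂ) (_ : K ≤ L)
      (κ ι : Type) [Fintype κ] [DecidableEq κ] [Fintype ι] [DecidableEq ι]
      (T : GL (Ix g ⊕ Fin k) ℂ × ℂˣ → GL κ ℂ) (_ : IsRep T) (n : GL ι ℂ) (iB : Matrix κ ι ℚ)
      (_ : IsSubOver L (T (dsum c r, tpi)) n iB) (_ : CharIn A c U T iB),
      (∀ y ∈ MT A c, ∃ f : GL ι ℂ, (T (dsum y.1 1, y.2)).1 * iB.map (fun x => (x : ℂ)) =
        iB.map (fun x => (x : ℂ)) * f.1) ∧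
      (∀ f ∈ MTSub A c T iB, ∀ h, Conj K (f * n) h →
        h ∈ OmegaDRB K n ∧ (K ≤ F → h ∈ OmegaM K n)) ∧
      (∀ S : Set (TPair K ι), (∀ α ∈ S, Fixes n α) →
        (∀ h ∈ OmegaS S, ∃ f ∈ MTSub A c T iB, Conj K (f * n) h) →
        OmegaDRB K n = OmegaS S ∧ (K ≤ F → OmegaM K n = OmegaS S)) ∧
      (K = L → G ≤ K → (∀ i j, r.1 i j ∈ K) →
        OmegaDRB K n = {h | ∃ f ∈ MTSub A c T iB, h = f * n} ∧
        (K ≤ F → OmegaM K n = {h | ∃ f ∈ MTSub A c T iB, h = f * n}))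

/-- The theorem. -/
theorem target5 : TARGET5 := by
  intro g N hg A hAQ c hc hGL E hE hall
  obtain ⟨pQ, hpQ⟩ := specPER Qbar g N A c hg le_rfl hAQ hc hGL
  obtain ⟨S₁, -, hS₁⟩ := all_clse Qbar g N A c hg le_rfl hAQ hc hGL pQ hpQ
    (all_hod Qbar g N A c hg le_rfl hAQ hc hGL E hE hall pQ hpQ)
  obtain ⟨G, hG, hGS⟩ := BigM.exists_field S₁
  refine ⟨G, hG, fun K hK => ?_, ?_⟩
  · obtain ⟨S, hS⟩ := hGS K hK
    exact ⟨S, hS.trans hS₁⟩
  intro L hL hA F hF hconj U hflat k r hr K hK κ ι _ _ _ _ T hT n iB hn hchar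
  obtain ⟨p, hp⟩ := specPER L g N A c hg hL hA hc hGL
  obtain ⟨S₀, hS₀, hMT⟩ := all_clse L g N A c hg hL hA hc hGL p hp
    (all_hod L g N A c hg hL hA hc hGL E hE hall p hp)
  obtain ⟨h1, h2, h3⟩ := mainR4 g N hg A L hL hA c hc hGL F hF hconj S₀ hS₀
    (fun f hf => by rwa [hMT] at hf) E hall U hflat k r hr K hK κ ι T hT n iB hn hchar
  refine ⟨h1, h2, h3, fun hKL hGK hrK => ?_⟩
  subst hKL
  obtain ⟨S, hS⟩ := hGS K hGK
  have hrefl : ∀ h : GL ι ℂ, Conj K h h := fun h =>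
    ⟨RingEquiv.refl ℂ, fun _ _ => rfl, fun _ _ => rfl⟩
  have key := drb_eq3 hg hL hA hc hGL hS₁ (hS.trans hS₁) hrK hT hn h1
    fun f hf => (h2 f hf _ (hrefl _)).1
  refine ⟨key, fun hKF => ?_⟩
  refine Set.Subset.antisymm ?_ ?_
  · rw [← key]
    exact Tors.OmegaM_subset_OmegaDRB _ _
  · rintro _ ⟨f, hf, rfl⟩
    exact (h2 f hf _ (hrefl _)).2 hKF

end Pool.Agent.Lib.MPf11a48.SH
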