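import Pool.Agent.Lib.MP_f11a48_ag.SH.RF.Tork
import Pool.Agent.Lib.MP_f11a48_ag.CMK.Maink

/-!
# MP_f11a48_ag, relative flatness, module MAINK
-/

set_option autoImplicit false

namespace Pool.Agent.Lib.MPf11a48.RF

open Matrix MvPolynomial
open Pool.Agent.Lib.MPf11a48.CM hiding OmegaM
open Pool.Agent.Lib.MPf11a48.GL2T
open Pool.Agent.Lib.MPf11a48.U
open Pool.Agent.Lib.MPf11a48.CMM
open Pool.Agent.Lib.MPf11a48.CMK
open Pool.Agent.Lib.MPf11a48.Tors (IsTorsor ClosedOver grp OmegaM FixesField)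

open MainkM REPM MainnM

/-- **MAINK**, relative version. -/
theorem mainkP (hRTK : SpecRtk) (hKND : SpecKnd) (hKSL : SpecKsl) (hGENR : SpecGenr)
    (ι : Type) [Fintype ι] [DecidableEq ι] [Nonempty ι] (c : GL ι ℂ) (J : Matrix ι ι ℝ)
    (ψ : Matrix ι ι ℚ) (F L : IntermediateField ℚ ℂ) (S : Str c ψ)
    (kk : Submodule ℂ (Matrix ι ι ℂ)) (O P : Submodule ℚ (EmbC c.1 → ℚ)) (hFQ : F ≤ Qbar)
    (hHD : HD c J ψ) (hkk : LieOK c F kk) (hR : RelsP c ψ F S (RGal L c) kk O P)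
    (𝒢 : Subgroup (GL ι ℂ × ℂˣ))
    (hG1 : ∀ X ∈ kk, ∀ m : ℂ, Xᵀ * mC ψ + mC ψ * X = m • mC ψ → ∀ y : GL ι ℂ × ℂˣ,
        y.1.1 = NormedSpace.exp X → (y.2 : ℂ) = Complex.exp m → y ∈ 𝒢)
    (hG2 : ∀ τ : ℂ ≃+* ℂ, FixesField L τ → ∀ y ∈ 𝒢, (twg τ c * y.1 * (twg τ c)⁻¹, y.2) ∈ 𝒢)
    (hG3 : ∀ w : EmbC c.1 → ℂ, (∀ s s', IsBar ψ s s' → w s' = -w s) →
      (∀ f ∈ P, ∑ s, (f s : ℂ) * w s = 0) → ∀ y : GL ι ℂ × ℂˣ,
        y.1.1 = NormedSpace.exp (CX S w) → y.2 = 1 → y ∈ 𝒢)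
    (yy : GL ι ℂ × ℂˣ) (u : REPM.EA S.κ S.σ) (hyc : yy.1.1 = S.Ψ u)
    (hyψ : yy.1.1ᵀ * mC ψ * yy.1.1 = (yy.2 : ℂ) • mC ψ)
    (hRel : ∀ χ : S.σ → ℤ, ∑ s, χ s = 0 →
      (∃ f ∈ O, ∀ s, f (S.ev (Sum.inr s)) = (χ s : ℚ) - χ (S.τ s)) →
      ∏ s, u.2 s ^ χ s = 1) : yy ∈ 𝒢 := by
  have hLIN : SpecLIN := specLIN
  have hSIM : SpecSIM := specSIM
  have hBIC : SpecBIC := BicM.specBIC specLIN specDER specSIM
  classical
  obtain ⟨hcomm, hsimil, -⟩ := hSIM c J ψ hHD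
  have hψdet : (mC ψ).det ≠ 0 := psi_det hHD.det
  have hψu : IsUnit (mC ψ).det := isUnit_iff_ne_zero.2 hψdet
  have hψ0 : mC ψ ≠ 0 := by
    intro h
    apply hψdet
    rw [h, Matrix.det_zero]
  -- exponentials of elements of the Lie algebra
  have hexpG : ∀ (X : Matrix ι ι ℂ) (m : ℂ), X ∈ kk → Xᵀ * mC ψ + mC ψ * X = m • mC ψ →
      ∃ y ∈ 𝒢, y.1.1 = NormedSpace.exp X ∧ (y.2 : ℂ) = Complex.exp m := by
    intro X m hX hXm
    obtain ⟨g', hg'⟩ := Matrix.isUnit_exp X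
    exact ⟨(g', Units.mk0 (Complex.exp m) (Complex.exp_ne_zero m)),
      hG1 X hX m hXm _ hg' rfl, hg', rfl⟩
  have hsl := hKSL ι c J ψ F S kk hHD hkk
  have htor := torkP hRTK hKND ι c J ψ F S (RGal L c) kk O P hFQ hHD hkk hR (MM S 𝒢) (by
      intro w hw
      obtain ⟨m, h⟩ := hsimil _ (hkk.inH _ hw)
      have h1 := TORM.mult_eq S hHD.det (x := fun k => w (S.ev (Sum.inl k)) • 1)
        (y := fun s => w (S.ev (Sum.inr s))) h
      refine ⟨m, ?_, ?_⟩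
      · intro s s' hs
        obtain ⟨e, rfl⟩ := S.ev.surjective s
        have h2 := TORM.isBar_unique hBIC hHD hs (TORM.isBar_bar S e)
        subst h2
        rcases e with k | j
        · have h3 := h1.1 k
          rw [Matrix.trace_smul, Matrix.trace_one] at h3
          simp only [Fintype.card_fin, smul_eq_mul] at h3
          change w (S.ev (Sum.inl k)) + w (S.ev (Sum.inl k)) = m
          rw [← h3]
          push_cast
          ring
        · exact h1.2 j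
      · intro t
        refine hexpG (t • CX S w) (t * m) (kk.smul_mem t hw) ?_
        rw [Matrix.transpose_smul, Matrix.smul_mul, Matrix.mul_smul, ← smul_add]
        have h' : (CX S w)ᵀ * mC ψ + mC ψ * CX S w = m • mC ψ := h
        rw [h', smul_smul])
    (MM_conj S 𝒢 hG2 hR.bar) (by
      intro w hw hwP
      refine ⟨0, fun s s' hs => by rw [hw s s' hs, add_neg_cancel], fun t => ?_⟩
      obtain ⟨g', hg'⟩ := Matrix.isUnit_exp (t • CX S w)
      refine ⟨(g', 1), hG3 (t • w) (fun s s' hs => ?_) (fun f hf => ?_) _ ?_ rfl, hg', ?_⟩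
      · rw [Pi.smul_apply, Pi.smul_apply, hw s s' hs, smul_neg]
      · have h1 : ∀ s, (f s : ℂ) * (t • w) s = t * ((f s : ℂ) * w s) := fun s => by
          rw [Pi.smul_apply, smul_eq_mul]
          ring
        rw [Finset.sum_congr rfl fun s _ => h1 s, ← Finset.mul_sum, hwP f hf, mul_zero]
      · rw [CX_smul]
        exact hg'
      · rw [mul_zero, Complex.exp_zero]
        rfl)
  -- the group
  let T : Set (EA S.κ S.σ) := {u | ∃ y ∈ 𝒢, y.1.1 = S.Ψ u ∧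
    y.1.1ᵀ * mC ψ * y.1.1 = (y.2 : ℂ) • mC ψ}
  have hT1 : (1 : EA S.κ S.σ) ∈ T := by
    refine ⟨1, 𝒢.one_mem, ?_, ?_⟩
    · rw [map_one]
      rfl
    · change (1 : Matrix ι ι ℂ)ᵀ * mC ψ * (1 : Matrix ι ι ℂ) = (1 : ℂ) • mC ψ
      rw [Matrix.transpose_one, one_mul, mul_one, one_smul]
  have hTmul : ∀ u ∈ T, ∀ t ∈ T, u * t ∈ T := by
    rintro u ⟨y, hy, hy1, hy2⟩ t ⟨z, hz, hz1, hz2⟩
    refine ⟨y * z, 𝒢.mul_mem hy hz, ?_, ?_⟩
    · rw [Prod.fst_mul, Units.val_mul, hy1, hz1, map_mul]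
    · rw [Prod.fst_mul, Units.val_mul, Prod.snd_mul, Units.val_mul, Matrix.transpose_mul]
      calc z.1.1ᵀ * y.1.1ᵀ * mC ψ * (y.1.1 * z.1.1)
          = z.1.1ᵀ * (y.1.1ᵀ * mC ψ * y.1.1) * z.1.1 := by simp only [mul_assoc]
        _ = (y.2 : ℂ) • (z.1.1ᵀ * mC ψ * z.1.1) := by
            rw [hy2, Matrix.mul_smul, Matrix.smul_mul]
        _ = _ := by rw [hz2, smul_smul]
  -- the element
  obtain ⟨x, y⟩ := u
  have hxy : S.Ψ (x, y) = yy.1.1 := hyc.symm
  have hadjg : adj (mC ψ) yy.1.1 * yy.1.1 = (yy.2 : ℂ) • 1 := by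
    rw [adj, mul_assoc, mul_assoc, ← mul_assoc yy.1.1ᵀ, hyψ, Matrix.mul_smul,
      Matrix.nonsing_inv_mul _ hψu]
  have hμ0 : (yy.2 : ℂ) ≠ 0 := yy.2.ne_zero
  rw [← hxy, S.adj_Ψ, ← map_mul] at hadjg
  have h2 : ((yy.2 : ℂ) • (1 : Matrix ι ι ℂ)) = S.Ψ ((yy.2 : ℂ) • 1) := by
    rw [map_smul, map_one]
  rw [h2] at hadjg
  have h3 := S.inj hadjg
  have hdet : ∀ k, (x k).det = (yy.2 : ℂ) := by
    intro k
    have h4 : (x k).adjugate * x k = (yy.2 : ℂ) • 1 := congrFun (congrArg Prod.fst h3) k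
    rw [Matrix.adjugate_mul] at h4
    have h5 := congrFun (congrFun h4 0) 0
    simpa using h5
  have hyy : ∀ s, y s * y (S.τ s) = (yy.2 : ℂ) := by
    intro s
    have h4 : y (S.τ s) * y s = (yy.2 : ℂ) • (1 : ℂ) := congrFun (congrArg Prod.snd h3) s
    rw [mul_comm, h4, smul_eq_mul, mul_one]
  have hmem : ((x, y) : EA S.κ S.σ) ∈ T := by
    refine hGENR S.κ S.σ S.τ (lamO S O) (fun n χ hn h => lamO_sat S O n χ hn h)
      (fun s t => lamO_pairs S O s t) T hT1 ?_ ?_ (yy.2 : ℂ) hμ0 x y hdet hyy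
      (fun χ hχ => hRel χ hχ.1 hχ.2)
    · intro x hx t ht
      refine hTmul _ ?_ t ht
      have h4 : (S.Ψ (x, 0))ᵀ * mC ψ + mC ψ * S.Ψ (x, 0) = (0 : ℂ) • mC ψ := by
        apply sim_of_adj hψdet
        rw [S.adj_Ψ, ← map_add, zero_smul, ← map_zero S.Ψ]
        congr 1
        refine Prod.ext ?_ ?_
        · funext k
          have h5 : (x k).adjugate + x k = 0 := by
            have h6 := hx k
            rw [Matrix.trace_fin_two] at h6
            rw [Matrix.adjugate_fin_two]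
            ext i j
            fin_cases i <;> fin_cases j <;> simp
            · rw [add_comm]; exact h6
            · exact h6
          exact h5
        · funext s
          simp
      obtain ⟨z, hz, hz1, hz2⟩ := hexpG _ 0 (hsl x hx) h4
      refine ⟨z, hz, ?_, ?_⟩
      · rw [hz1, ← exp_Ψ]
        congr 2
        funext s
        simp
      · rw [hz1, hz2]
        exact expsim hψdet h4
    · intro m y hy hyΛ t ht
      refine hTmul _ ?_ t ht
      obtain ⟨m', h4, h5⟩ := htor m y hy fun f hf => odd_sumO S O hR.odd hyΛ hf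
      obtain ⟨z, hz, hz1, hz2⟩ := h5 1
      rw [one_smul] at hz1
      rw [one_mul] at hz2
      refine ⟨z, hz, ?_, ?_⟩
      · rw [hz1]
        unfold CX
        rw [TORM.cenL_apply, TORM.cen, ← exp_Ψ]
        congr 1
        refine Prod.ext ?_ ?_
        · funext k
          simp only [Equiv.symm_apply_apply, Sum.elim_inl]
          exact exp_scalar _
        · funext s
          simp only [Equiv.symm_apply_apply, Sum.elim_inr]
      · rw [hz1, hz2]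
        exact expsim hψdet (sim_of_adj hψdet (CX_adj S h4))
  obtain ⟨z, hz, hz1, hz2⟩ := hmem
  have e1 : z.1 = yy.1 := Units.ext (by rw [hz1, hxy])
  have e2 : z.2 = yy.2 := by
    apply Units.ext
    rw [e1, hyψ] at hz2
    exact smul_left_injective ℂ hψ0 hz2.symm
  have e3 : z = yy := Prod.ext e1 e2
  rwa [← e3]

end Pool.Agent.Lib.MPf11a48.RF
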