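import Pool.Agent.Lib.MP_f11a48_ag.SH.RF.Defs
import Pool.Agent.Lib.MP_f11a48_ag.CMK.Tork

/-!
# MP_f11a48_ag, relative flatness, module TORK: the central part
-/

set_option autoImplicit false

namespace Pool.Agent.Lib.MPf11a48.RF

open Matrix MvPolynomial
open Pool.Agent.Lib.MPf11a48.CM hiding OmegaM
open Pool.Agent.Lib.MPf11a48.GL2T
open Pool.Agent.Lib.MPf11a48.U
open Pool.Agent.Lib.MPf11a48.CMM
open Pool.Agent.Lib.MPf11a48.CMK
open Pool.Agent.Lib.MPf11a48.Tors (IsTorsor ClosedOver grp OmegaM FixesField)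
open scoped Classical

open TORM TorrM TypM TypnM TornM TorkM

/-- An odd function which is orthogonal to all odd functions orthogonal to `P` is in `P`. -/
theorem mem_of_dual {α : Type} [Fintype α] [DecidableEq α] (P : Submodule ℚ (α → ℚ)) (b : α ≃ α)
    (hb : ∀ s, b (b s) = s) (hP : ∀ g ∈ P, ∀ s, g (b s) = -g s) {f : α → ℚ}
    (hf : ∀ s, f (b s) = -f s)
    (h : ∀ w : α → ℚ, (∀ s, w (b s) = -w s) → (∀ g ∈ P, ∑ s, g s * w s = 0) →
      ∑ s, f s * w s = 0) : f ∈ P := by
  by_contra hfP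
  obtain ⟨φ, hφ, hφP⟩ := P.exists_dual_map_eq_bot_of_notMem hfP inferInstance
  have hrep : ∀ g : α → ℚ, φ g = ∑ s, g s * φ (Pi.single s 1) := by
    intro g
    conv_lhs => rw [← Finset.univ_sum_single g]
    rw [map_sum]
    refine Finset.sum_congr rfl fun s _ => ?_
    have : (Pi.single s (g s) : α → ℚ) = g s • Pi.single s 1 := by
      rw [← Pi.single_smul, smul_eq_mul, mul_one]
    rw [this, map_smul, smul_eq_mul]
  have hdbl : ∀ g : α → ℚ, (∀ s, g (b s) = -g s) →
      ∑ s, g s * (φ (Pi.single s 1) - φ (Pi.single (b s) 1)) = 2 * φ g := by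
    intro g hg
    simp only [mul_sub, Finset.sum_sub_distrib]
    have h1 : ∑ s, g s * φ (Pi.single (b s) 1) = -φ g := by
      rw [hrep g, ← Equiv.sum_comp b, ← Finset.sum_neg_distrib]
      refine Finset.sum_congr rfl fun s _ => ?_
      rw [hb, hg, neg_mul]
    rw [h1, ← hrep g]
    ring
  have h2 := h (fun s => φ (Pi.single s 1) - φ (Pi.single (b s) 1))
    (fun s => by rw [hb]; ring) (fun g hg => by
      rw [hdbl g (hP g hg)]
      have h3 : φ g ∈ P.map φ := ⟨g, hg, rfl⟩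
      rw [hφP] at h3
      rw [(Submodule.mem_bot ℚ).1 h3, mul_zero])
  rw [hdbl f hf] at h2
  apply hφ
  linarith

/-- TORK, relative version. -/
theorem torkP (hRTK : SpecRtk) (hKND : SpecKnd)
    (ι : Type) [Fintype ι] [DecidableEq ι] [Nonempty ι] (c : GL ι ℂ) (J : Matrix ι ι ℝ)
    (ψ : Matrix ι ι ℚ) (F : IntermediateField ℚ ℂ) (S : Str c ψ)
    (R : Set (CenAlg c.1 ≃ₐ[ℚ] CenAlg c.1)) (kk : Submodule ℂ (Matrix ι ι ℂ))
    (O P : Submodule ℚ (EmbC c.1 → ℚ)) (hF : F ≤ Qbar) (h : HD c J ψ) (hk : LieOK c F kk)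
    (hR : RelsP c ψ F S R kk O P) (M : Submodule ℂ (EmbC c.1 → ℂ))
    (hM : ∀ w : EmbC c.1 → ℂ, TORM.cenL S (fun e => w (S.ev e)) ∈ kk → w ∈ M)
    (hMR : ∀ κ ∈ R, ∀ w ∈ M, (fun s : EmbC c.1 => w (s.comp κ.toAlgHom)) ∈ M)
    (hMP : ∀ w : EmbC c.1 → ℂ, (∀ s s', IsBar ψ s s' → w s' = -w s) →
      (∀ f ∈ P, ∑ s, (f s : ℂ) * w s = 0) → w ∈ M)
    (m : ℂ) (y : S.σ → ℂ) (hy : ∀ s, y s + y (S.τ s) = m)
    (hyrel : ∀ f ∈ O, ∑ s, (f (S.ev (Sum.inr s)) : ℂ) * y s = 0) :
    (fun s => (Sum.elim (fun _ => m / 2) y : S.κ ⊕ S.σ → ℂ) (S.ev.symm s)) ∈ M := by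
  have hB : SpecBIC := BicM.specBIC specLIN specDER specSIM
  obtain ⟨hr1, hr2, hr3, w₁, hw₁, hw₁'⟩ := hRTK ι c J ψ F S kk hF h hk
  obtain ⟨ρ, hρF, hρ⟩ := hR.conj
  have huniq : ∀ {s s' : EmbC c.1}, IsBar ψ s s' → s' = bE S s := fun hs =>
    isBar_unique hB h hs (isBar_bE S _)
  -- the constant functions
  have hone : cenL S (fun _ => (1 : ℂ)) ∈ kk := by
    obtain ⟨l, hl⟩ := exists_form
    have h1 := hr1 w₁ hw₁ l
    have h2 : ∀ s s', IsBar ψ s s' → l (w₁ s) + l (w₁ s') = 1 := fun s s' hs => by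
      rw [← map_add, hw₁' s s' hs, hl]
    have h3 := hr2 (fun s => l (w₁ s)) h1 ρ hρF
    have h4 : ∀ s : EmbC c.1, l (w₁ s) - l (w₁ (ρ.toAlgHom.comp s)) = 2 * l (w₁ s) - 1 := by
      intro s
      by_cases hs : IsBar ψ s s
      · have h5 := h2 _ _ hs
        have h6 := h2 _ _ (isBar_gal ρ hs)
        linarith
      · have h5 := h2 _ _ (hρ s hs)
        linarith
    have h5 : (fun _ => (1 : ℂ) : S.κ ⊕ S.σ → ℂ) =
        (2 : ℂ) • (fun e => ((l (w₁ (S.ev e)) : ℚ) : ℂ)) -
          ((fun e => ((l (w₁ (S.ev e)) : ℚ) : ℂ)) -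
            fun e => ((l (w₁ (ρ.toAlgHom.comp (S.ev e))) : ℚ) : ℂ)) := by
      funext e
      have h6 := congrArg (fun q : ℚ => (q : ℂ)) (h4 (S.ev e))
      push_cast at h6
      simp only [Pi.sub_apply, Pi.smul_apply, smul_eq_mul]
      rw [h6]
      ring
    rw [h5, map_sub, map_smul, map_sub]
    exact kk.sub_mem (kk.smul_mem _ h1) (kk.sub_mem h1 h3)
  have hconst : ∀ a : ℂ, cenL S (fun _ => a) ∈ kk := by
    intro a
    have h1 : (fun _ => a : S.κ ⊕ S.σ → ℂ) = a • fun _ => (1 : ℂ) := by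
      funext e
      simp
    rw [h1, map_smul]
    exact kk.smul_mem _ hone
  -- the odd elements of the Lie algebra
  have hH5 : ∀ w : EmbC c.1 → ℂ, cenL S (fun e => w (S.ev e)) ∈ kk →
      (∀ s s', IsBar ψ s s' → w s' = -w s) → w ∈ M5 F ψ O M := by
    intro w hw hodd
    refine ⟨fun l γ hγ => hM _ ?_, fun f hf => hR.rel w hw f hf, hodd⟩
    exact hr2 (fun s => l (w s)) (hr1 w hw l) γ hγ
  -- functions orthogonal to `M5`
  have hpgal : ∀ γ : Qbar ≃ₐ[ℚ] Qbar, OverG F γ → ∀ f ∈ perp (M5 F ψ O M),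
      (fun s : EmbC c.1 => f (γ.toAlgHom.comp s)) ∈ perp (M5 F ψ O M) := by
    intro γ hγ f hf w hw
    change ∑ s, (f (γ.toAlgHom.comp s) : ℂ) * w s = 0
    rw [sum_gal γ fun t s => (f t : ℂ) * w s]
    exact hf _ (M5_gal hR.gal hw γ.symm (overG_symm hγ))
  have hpaut : ∀ κ ∈ R, ∀ f ∈ perp (M5 F ψ O M),
      (fun s : EmbC c.1 => f (s.comp κ.toAlgHom)) ∈ perp (M5 F ψ O M) := by
    intro κ hκ f hf w hw
    have h1 := hf _ (stable_symm (M5 F ψ O M) (actR (c := c.1) κ)
      (fun w hw => M5_aut κ (hR.act κ hκ) (hR.bar κ hκ) (hMR κ hκ) hw) hw)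
    rw [← h1]
    refine Fintype.sum_equiv (actR (c := c.1) κ) _ _ fun s => ?_
    rw [Equiv.symm_apply_apply]
    rfl
  -- the odd functions orthogonal to `M5`
  have hU : ∀ f ∈ perp (M5 F ψ O M), (∀ s s', IsBar ψ s s' → f s' = -f s) → f ∈ O := by
    let U : Submodule ℚ (EmbC c.1 → ℚ) :=
      { carrier := {f | f ∈ perp (M5 F ψ O M) ∧ ∀ s s', IsBar ψ s s' → f s' = -f s}
        zero_mem' := ⟨(perp (M5 F ψ O M)).zero_mem, fun _ _ _ => by simp⟩
        add_mem' := by
          rintro f g ⟨hf, hf'⟩ ⟨hg, hg'⟩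
          refine ⟨(perp (M5 F ψ O M)).add_mem hf hg, fun s s' hs => ?_⟩
          rw [Pi.add_apply, Pi.add_apply, hf' s s' hs, hg' s s' hs]
          ring
        smul_mem' := by
          rintro r f ⟨hf, hf'⟩
          refine ⟨(perp (M5 F ψ O M)).smul_mem r hf, fun s s' hs => ?_⟩
          rw [Pi.smul_apply, Pi.smul_apply, hf' s s' hs, smul_neg] }
    have hUP : U ≤ P := by
      intro f hf
      refine mem_of_dual P (bE S) (bE_bE S) (fun g hg s => hR.oddP g hg s _ (isBar_bE S s))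
        (fun s => hf.2 s _ (isBar_bE S s)) fun w hw hwP => ?_
      have hw' : ∀ s s', IsBar ψ s s' → w s' = -w s := fun s s' hs => by
        rw [huniq hs]
        exact hw s
      have h1 : (fun s => ((w s : ℚ) : ℂ)) ∈ M5 F ψ O M := by
        refine ⟨fun l γ hγ => hMP _ (fun s s' hs => ?_) fun g hg => ?_, fun g hg => ?_,
          fun s s' hs => ?_⟩
        · have h2 := hw' _ _ (isBar_gal γ hs)
          change ((l ((w (γ.toAlgHom.comp s') : ℚ) : ℂ) : ℚ) : ℂ) =
            -((l ((w (γ.toAlgHom.comp s) : ℚ) : ℂ) : ℚ) : ℂ)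
          rw [h2]
          push_cast
          rw [map_neg]
          push_cast
          rfl
        · have h2 : ∀ s, ((l ((w (γ.toAlgHom.comp s) : ℚ) : ℂ) : ℚ) : ℂ) =
              ((l 1 : ℚ) : ℂ) * ((w (γ.toAlgHom.comp s) : ℚ) : ℂ) := by
            intro s
            have h3 := lin_rat_mul l (w (γ.toAlgHom.comp s)) 1
            rw [mul_one] at h3
            rw [h3]
            push_cast
            ring
          simp only [h2]
          have h3 : ∑ s, (g s : ℂ) * (((l 1 : ℚ) : ℂ) * ((w (γ.toAlgHom.comp s) : ℚ) : ℂ)) =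
              ((l 1 : ℚ) : ℂ) * ((∑ s, g s * w (γ.toAlgHom.comp s) : ℚ) : ℂ) := by
            push_cast
            rw [Finset.mul_sum]
            refine Finset.sum_congr rfl fun s _ => by ring
          rw [h3]
          have h4 : ∑ s, g s * w (γ.toAlgHom.comp s) = 0 := by
            have h5 := hwP _ (hR.galP γ.symm (overG_symm hγ) g hg)
            rw [← h5]
            refine Fintype.sum_equiv (TypM.act (c := c.1) γ) _ _ fun s => ?_
            change g s * w (γ.toAlgHom.comp s) =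
              g (γ.symm.toAlgHom.comp (γ.toAlgHom.comp s)) * w (γ.toAlgHom.comp s)
            rw [TypM.comp_symm]
          rw [h4]
          simp
        · have h3 := hwP g (hR.le hg)
          have h4 : ((∑ s, g s * w s : ℚ) : ℂ) = 0 := by rw [h3]; simp
          push_cast at h4
          exact h4
        · change ((w s' : ℚ) : ℂ) = -((w s : ℚ) : ℂ)
          rw [hw' s s' hs]
          push_cast
          rfl
      have h2 := hf.1 _ h1
      have h3 : ((∑ s, f s * w s : ℚ) : ℂ) = 0 := by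
        push_cast
        exact h2
      exact_mod_cast h3
    rcases hR.sep U (fun f hf => ⟨fun w hw => hw.2.1 f hf, hR.odd f hf⟩) hUP (fun f hf => hf.2)
      (fun γ hγ f hf => ⟨hpgal γ hγ f hf.1, fun s s' hs => hf.2 _ _ (isBar_gal γ hs)⟩)
      (fun κ hκ f hf => ⟨hpaut κ hκ f hf.1, fun s s' hs => hf.2 _ _ (hR.bar κ hκ s s' hs)⟩) with
      h1 | ⟨s, s', t, t', hs, ht, hd, hdn⟩
    · exact fun f hf hf' => h1 ⟨hf, hf'⟩
    · refine absurd (hKND ι c J ψ F S kk h hk s s' t t' hs ht fun w hw => ?_) hdn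
      obtain ⟨m', hm'⟩ := hr3 w hw
      have h1 : (fun s => w s - m' / 2) ∈ M5 F ψ O M := by
        refine hH5 _ ?_ fun s s' hs => ?_
        · have h2 : (fun e => w (S.ev e) - m' / 2) =
              (fun e => w (S.ev e)) - fun _ => m' / 2 := rfl
          rw [h2, map_sub]
          exact kk.sub_mem hw (hconst _)
        · have h2 := hm' s s' hs
          linear_combination h2
      have h2 := hd.1 _ h1
      have h3 : ∑ i, ((delta s s' - delta t t') i : ℂ) = 0 := by
        have h4 : ∀ a b : EmbC c.1, ∑ i, ((delta a b i : ℚ) : ℂ) = 0 := by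
          intro a b
          simp only [delta, Pi.sub_apply]
          push_cast
          rw [Finset.sum_sub_distrib]
          have h5 : ∀ a : EmbC c.1, ∑ i, (((Pi.single a 1 : EmbC c.1 → ℚ) i : ℚ) : ℂ) = 1 := by
            intro a
            rw [← Rat.cast_sum, Finset.sum_pi_single' a (1 : ℚ) Finset.univ]
            simp
          rw [h5, h5, sub_self]
        simp only [Pi.sub_apply]
        push_cast
        rw [Finset.sum_sub_distrib, h4, h4, sub_self]
      have h4 : ∑ i, ((delta s s' - delta t t') i : ℂ) * w i =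
          ∑ i, ((delta s s' - delta t t') i : ℂ) * (w i - m' / 2) +
            (∑ i, ((delta s s' - delta t t') i : ℂ)) * (m' / 2) := by
        rw [Finset.sum_mul, ← Finset.sum_add_distrib]
        exact Finset.sum_congr rfl fun i _ => by ring
      rw [h4, h3, zero_mul, add_zero]
      exact h2
  -- conclusion
  set x : EmbC c.1 → ℂ := fun s => (Sum.elim (fun _ => m / 2) y : S.κ ⊕ S.σ → ℂ) (S.ev.symm s)
    with hx
  have hxbar : ∀ s, x s + x (bE S s) = m := by
    intro s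
    change (Sum.elim (fun _ => m / 2) y : S.κ ⊕ S.σ → ℂ) (S.ev.symm s) +
      (Sum.elim (fun _ => m / 2) y : S.κ ⊕ S.σ → ℂ) (S.ev.symm (S.ev (bar S (S.ev.symm s)))) = m
    rw [Equiv.symm_apply_apply]
    rcases S.ev.symm s with k | j
    · exact add_halves m
    · exact hy j
  have hxodd : (fun s => x s - m / 2) ∈ M5 F ψ O M := by
    refine mem_of_rat (fun w hw l => M5_rat hw l) fun f hf => ?_
    have hfp : f ∈ perp (M5 F ψ O M) := hf
    -- the odd part
    have hg : (fun s => f s - f (bE S s)) ∈ O := by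
      refine hU _ ?_ fun s s' hs => ?_
      · intro w hw
        have h1 : ∑ s, (f (bE S s) : ℂ) * w s = -∑ s, (f s : ℂ) * w s := by
          rw [← Equiv.sum_comp (bE S), ← Finset.sum_neg_distrib]
          refine Finset.sum_congr rfl fun s _ => ?_
          rw [bE_bE, hw.2.2 s _ (isBar_bE S s), mul_neg]
        have h2 : ∀ s, ((f s - f (bE S s) : ℚ) : ℂ) * w s =
            (f s : ℂ) * w s - (f (bE S s) : ℂ) * w s := fun s => by
          push_cast
          ring
        rw [Finset.sum_congr rfl fun s _ => h2 s, Finset.sum_sub_distrib, h1, hfp w hw]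
        simp
      · rw [huniq hs, bE_bE]
        ring
    have h1 : ∑ s, ((f s - f (bE S s) : ℚ) : ℂ) * x s = 0 := by
      rw [← Equiv.sum_comp S.ev, Fintype.sum_sum_type]
      have h2 : ∀ k : S.κ, ((f (S.ev (Sum.inl k)) - f (bE S (S.ev (Sum.inl k))) : ℚ) : ℂ) *
          x (S.ev (Sum.inl k)) = 0 := by
        intro k
        have h3 : bE S (S.ev (Sum.inl k)) = S.ev (Sum.inl k) := by
          change S.ev (bar S (S.ev.symm (S.ev (Sum.inl k)))) = _
          rw [Equiv.symm_apply_apply]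
          rfl
        rw [h3, sub_self, Rat.cast_zero, zero_mul]
      rw [Finset.sum_congr rfl fun k _ => h2 k, Finset.sum_const_zero, zero_add,
        ← hyrel _ hg]
      refine Finset.sum_congr rfl fun s _ => ?_
      rw [hx]
      beta_reduce
      rw [Equiv.symm_apply_apply]
      rfl
    have h2 : ∑ s, ((f s - f (bE S s) : ℚ) : ℂ) = 0 := by
      push_cast
      rw [Finset.sum_sub_distrib, Equiv.sum_comp (bE S) (fun s => ((f s : ℚ) : ℂ)), sub_self]
    have h3 : ∑ s, (f (bE S s) : ℂ) * (x s - m / 2) = -∑ s, (f s : ℂ) * (x s - m / 2) := by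
      rw [← Equiv.sum_comp (bE S), ← Finset.sum_neg_distrib]
      refine Finset.sum_congr rfl fun s _ => ?_
      rw [bE_bE]
      have h4 := hxbar s
      linear_combination (f s : ℂ) * h4
    have h4 : ∑ s, ((f s - f (bE S s) : ℚ) : ℂ) * x s -
        (∑ s, ((f s - f (bE S s) : ℚ) : ℂ)) * (m / 2) =
        ∑ s, (f s : ℂ) * (x s - m / 2) - ∑ s, (f (bE S s) : ℂ) * (x s - m / 2) := by
      rw [Finset.sum_mul, ← Finset.sum_sub_distrib, ← Finset.sum_sub_distrib]
      refine Finset.sum_congr rfl fun s _ => ?_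
      push_cast
      ring
    rw [h1, h2, zero_mul, sub_zero, h3] at h4
    change ∑ s, (f s : ℂ) * (x s - m / 2) = 0
    linear_combination (-1 / 2 : ℂ) * h4
  have hxc : (fun _ => m / 2 : EmbC c.1 → ℂ) ∈ M := hM _ (hconst _)
  have hfin : x = (fun s => x s - m / 2) + fun _ => m / 2 := by
    funext s
    simp
  rw [hfin]
  exact M.add_mem (M5_le hxodd) hxc

end Pool.Agent.Lib.MPf11a48.RF
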